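import Mathlib

/-! Real and integral divisor classes on a blow-up of projective space, the
Dolgachev-Mukai pairing, and the averaging lemma. -/

namespace Pool.Agent.Helper17.Blowup

open scoped NNReal

/-- integral divisor classes: `(d, m)` stands for `d H - ∑ m_i E_i`. -/
abbrev ZCls (s : ℕ) := ℤ × (Fin s → ℤ)
/-- real divisor classes. -/
abbrev RCls (s : ℕ) := ℝ × (Fin s → ℝ)

variable {s : ℕ}

/-- the real class of an integral class -/
def toR (D : ZCls s) : RCls s := ((D.1 : ℝ), fun i => (D.2 i : ℝ))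

@[simp] lemma toR_fst (D : ZCls s) : (toR D).1 = (D.1 : ℝ) := rfl
@[simp] lemma toR_snd (D : ZCls s) (i : Fin s) : (toR D).2 i = (D.2 i : ℝ) := rfl

/-- the Dolgachev-Mukai pairing -/
def ip (n : ℕ) (D E : RCls s) : ℝ := ((n : ℝ) - 1) * D.1 * E.1 - ∑ i, D.2 i * E.2 i

lemma ip_comm (n : ℕ) (D E : RCls s) : ip n D E = ip n E D := by
  unfold ip
  have : ∑ i, D.2 i * E.2 i = ∑ i, E.2 i * D.2 i := Finset.sum_congr rfl fun i _ => mul_comm _ _
  rw [this]; ring

lemma ip_add_left (n : ℕ) (D D' E : RCls s) : ip n (D + D') E = ip n D E + ip n D' E := by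
  unfold ip
  simp only [Prod.fst_add, Prod.snd_add, Pi.add_apply, add_mul, Finset.sum_add_distrib]
  ring

lemma ip_smul_left (n : ℕ) (a : ℝ) (D E : RCls s) : ip n (a • D) E = a * ip n D E := by
  unfold ip
  simp only [Prod.smul_fst, Prod.smul_snd, Pi.smul_apply, smul_eq_mul, mul_assoc,
    ← Finset.mul_sum]
  ring

lemma ip_add_right (n : ℕ) (D E E' : RCls s) : ip n D (E + E') = ip n D E + ip n D E' := by
  rw [ip_comm, ip_add_left, ip_comm n E, ip_comm n E']

lemma ip_smul_right (n : ℕ) (a : ℝ) (D E : RCls s) : ip n D (a • E) = a * ip n D E := by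
  rw [ip_comm, ip_smul_left, ip_comm]

lemma ip_zero_left (n : ℕ) (E : RCls s) : ip n 0 E = 0 := by
  simp [ip]

lemma ip_sum_left {ι : Type*} (n : ℕ) (t : Finset ι) (f : ι → RCls s) (E : RCls s) :
    ip n (∑ i ∈ t, f i) E = ∑ i ∈ t, ip n (f i) E := by
  classical
  induction t using Finset.induction_on with
  | empty => simp [ip_zero_left]
  | insert a t ha ih => rw [Finset.sum_insert ha, Finset.sum_insert ha, ip_add_left, ih]

/-- the class `H - E_0 - ... - E_n` -/
def a0 (n : ℕ) : RCls s := (1, fun i => if (i : ℕ) < n + 1 then 1 else 0)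

lemma sum_ite_lt {s : ℕ} (j : ℕ) (hj : j ≤ s) :
    ∑ i : Fin s, (if (i : ℕ) < j then (1 : ℝ) else 0) = j := by
  rw [Fin.sum_univ_eq_sum_range (fun i => if i < j then (1 : ℝ) else 0) s]
  rw [← Finset.sum_filter]
  have : (Finset.range s).filter (fun i => i < j) = Finset.range j := by
    ext a; simp; omega
  rw [this]; simp

lemma ip_a0_a0 (n : ℕ) (hs : n + 1 ≤ s) : ip n (a0 (s := s) n) (a0 n) = -2 := by
  unfold ip a0
  have : ∀ i : Fin s, ((if (i : ℕ) < n + 1 then (1 : ℝ) else 0) * (if (i : ℕ) < n + 1 then (1 : ℝ) else 0))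
      = if (i : ℕ) < n + 1 then (1 : ℝ) else 0 := by
    intro i; split_ifs <;> simp
  simp only [this]
  rw [sum_ite_lt (n + 1) hs]
  push_cast; ring

/-- the standard Cremona action based at the first `n+1` points, on integral classes -/
def crem0 (n : ℕ) (D : ZCls s) : ZCls s :=
  (D.1 + (((n : ℤ) - 1) * D.1 - ∑ i : Fin s, if (i : ℕ) < n + 1 then D.2 i else 0),
    fun i => if (i : ℕ) < n + 1 then D.2 i + (((n : ℤ) - 1) * D.1 - ∑ i : Fin s, if (i : ℕ) < n + 1 then D.2 i else 0)
      else D.2 i)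

lemma toR_crem0 (n : ℕ) (D : ZCls s) : toR (crem0 n D) = toR D + (ip n (toR D) (a0 n)) • a0 n := by
  have h : ip n (toR D) (a0 n) = ((((n : ℤ) - 1) * D.1 - ∑ i : Fin s, if (i : ℕ) < n + 1 then D.2 i else 0 : ℤ) : ℝ) := by
    unfold ip a0 toR
    push_cast
    simp [mul_ite]
  rw [h]
  refine Prod.ext ?_ ?_
  · simp only [toR_fst, Prod.fst_add, Prod.smul_fst, crem0, a0, smul_eq_mul, mul_one]
    push_cast; ring
  · funext i
    simp only [toR_snd, Prod.snd_add, Prod.smul_snd, Pi.add_apply, Pi.smul_apply, crem0, a0,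
      smul_eq_mul]
    split_ifs <;> push_cast <;> simp

lemma crem0_crem0 (n : ℕ) (hs : n + 1 ≤ s) (D : ZCls s) : crem0 n (crem0 n D) = D := by
  have h : toR (crem0 n (crem0 n D)) = toR D := by
    rw [toR_crem0, toR_crem0, ip_add_left, ip_smul_left, ip_a0_a0 n hs, add_assoc, ← add_smul]
    have : (ip n (toR D) (a0 n)) + ((ip n (toR D) (a0 n)) + (ip n (toR D) (a0 n)) * (-2)) = 0 := by ring
    rw [this]; simp
  refine Prod.ext ?_ ?_
  · have := congrArg Prod.fst h
    simpa using this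
  · funext i
    have := congrFun (congrArg Prod.snd h) i
    simpa using this

/-- permuting the points -/
def permC (σ : Equiv.Perm (Fin s)) (D : ZCls s) : ZCls s := (D.1, fun i => D.2 (σ i))

/-- Orbit of `g` under the permutations preserving `μ` and, when `c` holds, under the standard
Cremona reflection. -/
inductive Orb (n : ℕ) (μ : Fin s → ℝ) (c : Prop) (g : ZCls s) : ZCls s → Prop
  | base : Orb n μ c g g
  | perm (σ : Equiv.Perm (Fin s)) (hσ : ∀ i, μ (σ i) = μ i) {D : ZCls s} :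
      Orb n μ c g D → Orb n μ c g (permC σ D)
  | crem (hc : c) {D : ZCls s} : Orb n μ c g D → Orb n μ c g (crem0 n D)

lemma Orb.ip_const {n : ℕ} {x : RCls s} {c : Prop} {g D : ZCls s}
    (hc : c → ip n x (a0 n) = 0) (h : Orb n x.2 c g D) :
    ip n (toR D) x = ip n (toR g) x := by
  induction h with
  | base => rfl
  | @perm σ hσ D _ ih =>
      rw [← ih]
      unfold ip
      have : ∑ i, (toR (permC σ D)).2 i * x.2 i = ∑ i, (toR D).2 i * x.2 i := by
        rw [← Equiv.sum_comp σ (fun i => (toR D).2 i * x.2 i)]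
        exact Finset.sum_congr rfl fun i _ => by simp [permC, hσ]
      rw [this]; rfl
  | @crem h D _ ih =>
      rw [toR_crem0, ip_add_left, ip_smul_left, ip_comm n (a0 n) x, hc h, ih]; ring

lemma Orb.ip_self {n : ℕ} (hs : n + 1 ≤ s) {μ : Fin s → ℝ} {c : Prop} {g D : ZCls s}
    (h : Orb n μ c g D) : ip n (toR D) (toR D) = ip n (toR g) (toR g) := by
  induction h with
  | base => rfl
  | @perm σ hσ D _ ih =>
      rw [← ih]
      unfold ip
      have : ∑ i, (toR (permC σ D)).2 i * (toR (permC σ D)).2 i = ∑ i, (toR D).2 i * (toR D).2 i := by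
        rw [← Equiv.sum_comp σ (fun i => (toR D).2 i * (toR D).2 i)]
        exact Finset.sum_congr rfl fun i _ => by simp [permC]
      rw [this]; rfl
  | @crem h D _ ih =>
      rw [toR_crem0]
      simp only [ip_add_left, ip_add_right, ip_smul_left, ip_smul_right, ip_a0_a0 n hs,
        ip_comm n (a0 n) (toR D)]
      rw [ih]; ring

lemma quad_bound {A B C d : ℝ} (hA : 0 < A) (h : A * d ^ 2 ≤ B * d + C) :
    |d| ≤ 1 + (|B| + |C|) / A := by
  have hpos : 0 ≤ (|B| + |C|) / A := by positivity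
  by_cases h1 : |d| ≤ 1
  · linarith
  · push Not at h1
    have h2 : A * |d| ^ 2 ≤ (|B| + |C|) * |d| := by
      have e1 : B * d ≤ |B| * |d| := by
        rw [← abs_mul]; exact le_abs_self _
      have e2 : C ≤ |C| * |d| := by
        have := le_abs_self C
        nlinarith [abs_nonneg C]
      rw [sq_abs]; nlinarith
    have h3 : A * |d| ≤ |B| + |C| := by
      have hd : 0 < |d| := by linarith
      by_contra hcon
      push Not at hcon
      nlinarith
    have h4 : |d| ≤ (|B| + |C|) / A := by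
      rw [le_div_iff₀ hA]; linarith
    linarith

/-- level sets for integral classes are finite -/
lemma finite_level (n : ℕ) (hn : 2 ≤ n) (x : RCls s) (hx : 0 < ip n x x) (c c1 : ℝ) :
    {D : ZCls s | ip n (toR D) (toR D) = c ∧ ip n (toR D) x = c1}.Finite := by
  classical
  set N : ℝ := (n : ℝ) - 1 with hN
  have hN1 : 1 ≤ N := by
    have : (2 : ℝ) ≤ n := by exact_mod_cast hn
    rw [hN]; linarith
  set M2 : ℝ := ∑ i, x.2 i ^ 2 with hM2
  set Q : ℝ := ip n x x with hQ
  have hQ' : Q = N * x.1 ^ 2 - M2 := by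
    rw [hQ, hM2]; unfold ip
    have : ∑ i, x.2 i * x.2 i = ∑ i, x.2 i ^ 2 := Finset.sum_congr rfl fun i _ => (sq _).symm
    rw [this]; ring
  set R0 : ℝ := 1 + (|2 * N * x.1 * c1| + |-c1 ^ 2 - c * M2|) / (N * Q) with hR0
  set R1 : ℝ := 1 + (N * R0 ^ 2 + |c|) with hR1
  obtain ⟨M, hM⟩ := exists_nat_ge (max R0 R1)
  have hfin : (Set.Icc ((-(M:ℤ), fun _ => -(M : ℤ)) : ZCls s) ((M : ℤ), fun _ => (M : ℤ))).Finite :=
    Set.finite_Icc _ _
  refine hfin.subset ?_
  rintro D ⟨h1, h2⟩
  set d : ℝ := (D.1 : ℝ) with hd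
  set S : ℝ := ∑ i, ((D.2 i : ℝ)) ^ 2 with hS
  set P : ℝ := ∑ i, (D.2 i : ℝ) * x.2 i with hP
  have e1 : N * d ^ 2 - S = c := by
    rw [← h1]; unfold ip
    have : ∑ i, (toR D).2 i * (toR D).2 i = S := Finset.sum_congr rfl fun i _ => by
      simp [sq]
    rw [this]; simp only [toR_fst]; ring
  have e2 : N * d * x.1 - P = c1 := by
    rw [← h2]; unfold ip; simp only [toR_fst, toR_snd]
    rfl
  have cs : P ^ 2 ≤ S * M2 := Finset.sum_mul_sq_le_sq_mul_sq _ _ _
  have key : (N * Q) * d ^ 2 ≤ (2 * N * x.1 * c1) * d + (-c1 ^ 2 - c * M2) := by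
    have hPe : P = N * d * x.1 - c1 := by linarith
    have hSe : S = N * d ^ 2 - c := by linarith
    rw [hPe, hSe] at cs
    rw [hQ']
    nlinarith
  have b0 : |d| ≤ R0 := quad_bound (by positivity) key
  have hR0nn : 0 ≤ R0 := le_trans (abs_nonneg _) b0
  have b1 : ∀ i, |(D.2 i : ℝ)| ≤ R1 := by
    intro i
    have hle : ((D.2 i : ℝ)) ^ 2 ≤ S :=
      Finset.single_le_sum (f := fun i => ((D.2 i : ℝ)) ^ 2) (fun _ _ => sq_nonneg _)
        (Finset.mem_univ i)
    have hSle : S ≤ N * R0 ^ 2 + |c| := by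
      have hSe : S = N * d ^ 2 - c := by linarith
      have hd2 : d ^ 2 ≤ R0 ^ 2 := sq_le_sq' (by linarith [neg_abs_le d]) (le_trans (le_abs_self _) b0)
      have := neg_abs_le c
      nlinarith
    have hTnn : 0 ≤ N * R0 ^ 2 + |c| := by positivity
    rw [abs_le]
    constructor <;> nlinarith [sq_nonneg ((D.2 i : ℝ) - 1), sq_nonneg ((D.2 i : ℝ) + 1)]
  have hMR0 : R0 ≤ M := le_trans (le_max_left _ _) hM
  have hMR1 : R1 ≤ M := le_trans (le_max_right _ _) hM
  have c0 : |D.1| ≤ (M : ℤ) := by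
    have : (|D.1| : ℝ) ≤ (M : ℝ) := le_trans b0 hMR0
    exact_mod_cast this
  have c2 : ∀ i, |D.2 i| ≤ (M : ℤ) := by
    intro i
    have : (|D.2 i| : ℝ) ≤ (M : ℝ) := le_trans (b1 i) hMR1
    exact_mod_cast this
  rw [Set.mem_Icc]
  refine ⟨⟨(abs_le.mp c0).1, fun i => (abs_le.mp (c2 i)).1⟩, ⟨(abs_le.mp c0).2, fun i => (abs_le.mp (c2 i)).2⟩⟩

lemma permC_swap_swap (a b : Fin s) (D : ZCls s) :
    permC (Equiv.swap a b) (permC (Equiv.swap a b) D) = D := by
  unfold permC
  ext <;> simp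

/-- **Averaging lemma.** -/
lemma averaging (n : ℕ) (hn : 2 ≤ n) (hs : n + 1 ≤ s) (x : RCls s) (hx : 0 < ip n x x)
    (g : ZCls s) (hg : 0 < ip n (toR g) x) (c : Prop) (hc : c → ip n x (a0 n) = 0)
    (C : Submodule ℝ≥0 (RCls s)) (hC : ∀ D, Orb n x.2 c g D → toR D ∈ C)
    (huniq : ∀ z : RCls s, (∀ a b, x.2 a = x.2 b → z.2 a = z.2 b) → (c → ip n z (a0 n) = 0) →
      (∃ (t : Finset (ZCls s)), (∀ D ∈ t, Orb n x.2 c g D) ∧ z = ∑ D ∈ t, toR D) →
      ∃ r : ℝ, z = r • x) : x ∈ C := by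
  classical
  have hfin : {D : ZCls s | Orb n x.2 c g D}.Finite := by
    refine (finite_level n hn x hx (ip n (toR g) (toR g)) (ip n (toR g) x)).subset ?_
    intro D hD
    exact ⟨hD.ip_self hs, hD.ip_const hc⟩
  set t : Finset (ZCls s) := hfin.toFinset with ht
  have hmem : ∀ D, D ∈ t ↔ Orb n x.2 c g D := by intro D; simp [ht]
  set z : RCls s := ∑ D ∈ t, toR D with hz
  have H1 : ∀ a b, x.2 a = x.2 b → z.2 a = z.2 b := by
    intro a b hab
    have hσ : ∀ i, x.2 (Equiv.swap a b i) = x.2 i := by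
      intro i
      by_cases h1 : i = a
      · subst h1; rw [Equiv.swap_apply_left]; exact hab.symm
      · by_cases h2 : i = b
        · subst h2; rw [Equiv.swap_apply_right]; exact hab
        · rw [Equiv.swap_apply_of_ne_of_ne h1 h2]
    have hbij : z = ∑ D ∈ t, toR (permC (Equiv.swap a b) D) := by
      rw [hz]
      refine Finset.sum_nbij' (fun D => permC (Equiv.swap a b) D) (fun D => permC (Equiv.swap a b) D)
        ?_ ?_ ?_ ?_ ?_
      · intro D hD; rw [hmem] at hD ⊢; exact Orb.perm _ hσ hD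
      · intro D hD; rw [hmem] at hD ⊢; exact Orb.perm _ hσ hD
      · intro D _; exact permC_swap_swap a b D
      · intro D _; exact permC_swap_swap a b D
      · intro D _; rw [permC_swap_swap]
    have h1 : z.2 a = (∑ D ∈ t, toR (permC (Equiv.swap a b) D)).2 a := by
      conv_lhs => rw [hbij]
    rw [h1, hz]
    simp only [Prod.snd_sum, Finset.sum_apply]
    refine Finset.sum_congr rfl fun D _ => ?_
    simp [permC]
  have H2 : c → ip n z (a0 n) = 0 := by
    intro hcc
    have hbij : z = ∑ D ∈ t, toR (crem0 n D) := by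
      rw [hz]
      refine Finset.sum_nbij' (fun D => crem0 n D) (fun D => crem0 n D)
        ?_ ?_ ?_ ?_ ?_
      · intro D hD; rw [hmem] at hD ⊢; exact Orb.crem hcc hD
      · intro D hD; rw [hmem] at hD ⊢; exact Orb.crem hcc hD
      · intro D _; exact crem0_crem0 n hs D
      · intro D _; exact crem0_crem0 n hs D
      · intro D _; rw [crem0_crem0 n hs]
    have h2 : ip n z (a0 n) = ip n z (a0 n) + ip n z (a0 n) * (-2) := by
      conv_lhs => rw [hbij]
      rw [ip_sum_left]
      simp only [toR_crem0, ip_add_left, ip_smul_left, ip_a0_a0 n hs, Finset.sum_add_distrib]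
      rw [← Finset.sum_mul, ← ip_sum_left, ← hz]
    linarith
  obtain ⟨r, hr⟩ := huniq z H1 H2 ⟨t, fun D hD => (hmem D).1 hD, rfl⟩
  · -- positivity
    have h1 : ip n z x = t.card * ip n (toR g) x := by
      rw [hz, ip_sum_left]
      rw [Finset.sum_congr rfl (fun D hD => ((hmem D).1 hD).ip_const hc)]
      simp
    have hcard : 0 < t.card := Finset.card_pos.mpr ⟨g, (hmem g).2 Orb.base⟩
    have h2 : 0 < ip n z x := by
      rw [h1]
      have : (0 : ℝ) < t.card := by exact_mod_cast hcard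
      positivity
    rw [hr, ip_smul_left] at h2
    have hrpos : 0 < r := by
      by_contra hcon
      push Not at hcon
      nlinarith
    have hzC : z ∈ C := by
      rw [hz]
      exact Submodule.sum_mem _ fun D hD => hC D ((hmem D).1 hD)
    have hx' : x = (Real.toNNReal r⁻¹) • z := by
      rw [NNReal.smul_def, Real.coe_toNNReal _ (by positivity), hr, smul_smul,
        inv_mul_cancel₀ hrpos.ne', one_smul]
    rw [hx']
    exact C.smul_mem _ hzC

end Pool.Agent.Helper17.Blowup
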