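import Pool.Agent.Helper17.Blowup.Avg

/-! Combinatorial heart: the polyhedral cone of Cremona-reduced classes of nonnegative
anticanonical degree lies in the cone spanned by Weyl divisors and by Weyl translates of three
explicit families of effective classes of anticanonical degree zero. -/

namespace Pool.Agent.Helper17.Blowup

open scoped NNReal

variable {s : ℕ}

/-- degree against the anticanonical curve class -/
def degF (n : ℕ) (D : RCls s) : ℝ := ((n : ℝ) + 1) * D.1 - ∑ i, D.2 i

lemma degF_add (n : ℕ) (D E : RCls s) : degF n (D + E) = degF n D + degF n E := by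
  unfold degF
  simp only [Prod.fst_add, Prod.snd_add, Pi.add_apply, Finset.sum_add_distrib]
  ring

lemma degF_smul (n : ℕ) (a : ℝ) (D : RCls s) : degF n (a • D) = a * degF n D := by
  unfold degF
  simp only [Prod.smul_fst, Prod.smul_snd, Pi.smul_apply, smul_eq_mul, ← Finset.mul_sum]
  ring

/-- `degF` as a linear map -/
def degFL (s n : ℕ) : RCls s →ₗ[ℝ] ℝ where
  toFun := degF n
  map_add' := degF_add n
  map_smul' := degF_smul n

@[simp] lemma degFL_apply (n : ℕ) (D : RCls s) : degFL s n D = degF n D := rfl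

lemma degF_a0 (n : ℕ) (hs : n + 1 ≤ s) : degF n (a0 (s := s) n) = 0 := by
  unfold degF a0
  simp only
  rw [sum_ite_lt (n + 1) hs]
  push_cast; ring

lemma degF_permC (n : ℕ) (σ : Equiv.Perm (Fin s)) (D : ZCls s) :
    degF n (toR (permC σ D)) = degF n (toR D) := by
  unfold degF
  have : ∑ i, (toR (permC σ D)).2 i = ∑ i, (toR D).2 i := by
    rw [← Equiv.sum_comp σ (fun i => (toR D).2 i)]; rfl
  rw [this]; rfl

lemma degF_crem0 (n : ℕ) (hs : n + 1 ≤ s) (D : ZCls s) :
    degF n (toR (crem0 n D)) = degF n (toR D) := by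
  rw [toR_crem0, degF_add, degF_smul, degF_a0 n hs]; ring

lemma Orb.degF {n : ℕ} (hs : n + 1 ≤ s) {μ : Fin s → ℝ} {c : Prop} {g D : ZCls s}
    (h : Orb n μ c g D) : degF n (toR D) = degF n (toR g) := by
  induction h with
  | base => rfl
  | @perm σ hσ D _ ih => rw [degF_permC, ih]
  | @crem h D _ ih => rw [degF_crem0 n hs, ih]

/-- full Weyl orbit -/
def WOrb (n : ℕ) (g D : ZCls s) : Prop := Orb n (fun _ => (0 : ℝ)) True g D

lemma Orb.worb {n : ℕ} {μ : Fin s → ℝ} {c : Prop} {g D : ZCls s} (h : Orb n μ c g D) :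
    WOrb n g D := by
  induction h with
  | base => exact Orb.base
  | @perm σ hσ D _ ih => exact Orb.perm σ (fun _ => rfl) ih
  | @crem h D _ ih => exact Orb.crem trivial ih

/-- The base classes: exceptional divisors, and three families of classes of anticanonical
degree zero. -/
inductive Base : (n s : ℕ) → ZCls s → Prop
  | exc (n s : ℕ) (i : Fin s) : Base n s (0, fun j => if j = i then -1 else 0)
  | g1 (n s : ℕ) (hn : 2 ≤ n) (hs : n + 7 ≤ s) :
      Base n s (3, fun i => if (i : ℕ) + 2 < n then 3 else if (i : ℕ) < n + 7 then 1 else 0)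
  | g2 (n s : ℕ) (hn : 3 ≤ n) (hs : n + 5 ≤ s) :
      Base n s (2, fun i => if (i : ℕ) + 3 < n then 2 else if (i : ℕ) < n + 5 then 1 else 0)
  | g3 (n s : ℕ) (hn : 5 ≤ n) (hs : n + 4 ≤ s) :
      Base n s (3, fun i => if (i : ℕ) + 5 < n then 3 else if (i : ℕ) < n + 4 then 2 else 0)

/-- generators of the target cone -/
def genT (n s : ℕ) : Set (RCls s) := {v | ∃ g D : ZCls s, Base n s g ∧ WOrb n g D ∧ v = toR D}

/-- target cone -/
def coneT (n s : ℕ) : Submodule ℝ≥0 (RCls s) := Submodule.span ℝ≥0 (genT n s)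

lemma mem_coneT_of_orb {n s : ℕ} {g D : ZCls s} (hg : Base n s g) (hD : WOrb n g D) :
    toR D ∈ coneT n s := Submodule.subset_span ⟨g, D, hg, hD, rfl⟩

lemma smul_mem_coneT {n s : ℕ} {v : RCls s} (hv : v ∈ coneT n s) {a : ℝ} (ha : 0 ≤ a) :
    a • v ∈ coneT n s := by
  have := (coneT n s).smul_mem (Real.toNNReal a) hv
  rwa [NNReal.smul_def, Real.coe_toNNReal _ ha] at this

/-! ### degenerate classes -/

lemma exc_mem (n s : ℕ) (i : Fin s) : ((0, fun j => if j = i then -1 else 0) : RCls s) ∈ coneT n s := by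
  have := mem_coneT_of_orb (Base.exc n s i) Orb.base
  have e : toR ((0, fun j => if j = i then -1 else 0) : ZCls s)
      = ((0, fun j => if j = i then -1 else 0) : RCls s) := by
    refine Prod.ext ?_ ?_
    · simp
    · funext j; simp only [toR_snd]; split_ifs <;> simp
  rwa [e] at this

/-- `H - E_0 - ... - E_{n-1}` -/
lemma hyp_mem (n s : ℕ) (hs : n + 1 ≤ s) :
    ((1, fun j => if (j : ℕ) < n then 1 else 0) : RCls s) ∈ coneT n s := by
  have h1 := mem_coneT_of_orb (Base.exc n s ⟨n, by omega⟩) (Orb.crem trivial Orb.base)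
  have e : toR (crem0 n ((0, fun j => if j = (⟨n, by omega⟩ : Fin s) then -1 else 0) : ZCls s))
      = ((1, fun j => if (j : ℕ) < n then 1 else 0) : RCls s) := by
    have hsum : (∑ i : Fin s, if (i : ℕ) < n + 1 then (if i = (⟨n, by omega⟩ : Fin s) then (-1 : ℤ) else 0) else 0) = -1 := by
      rw [Finset.sum_eq_single (⟨n, by omega⟩ : Fin s)]
      · simp
      · intro b _ hb; simp [hb]
      · simp
    refine Prod.ext ?_ ?_
    · simp only [toR_fst, crem0]
      rw [hsum]; simp
    · funext j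
      simp only [toR_snd, crem0]
      rw [hsum]
      by_cases h1 : (j : ℕ) < n
      · have h2 : (j : ℕ) < n + 1 := by omega
        have h3 : j ≠ (⟨n, by omega⟩ : Fin s) := by
          intro h; rw [h] at h1; simp at h1
        simp [h1, h2, h3]
      · by_cases h2 : (j : ℕ) < n + 1
        · have h3 : j = (⟨n, by omega⟩ : Fin s) := by
            ext; simp; omega
          simp [h3]
        · have h3 : j ≠ (⟨n, by omega⟩ : Fin s) := by
            intro h; rw [h] at h2; simp at h2
          simp [h1, h2, h3]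
  rwa [e] at h1

/-- if `(d, m)` is in the cone and `m' ≤ m` then `(d, m')` is in the cone -/
lemma lower_mem (n s : ℕ) {v w : RCls s} (hv : v ∈ coneT n s) (h1 : v.1 = w.1)
    (h2 : ∀ i, w.2 i ≤ v.2 i) : w ∈ coneT n s := by
  have : w = v + ∑ i, (v.2 i - w.2 i) • ((0, fun j => if j = i then -1 else 0) : RCls s) := by
    refine Prod.ext ?_ ?_
    · simp [h1, Prod.fst_sum]
    · funext j
      simp only [Prod.snd_add, Pi.add_apply, Prod.snd_sum, Finset.sum_apply, Prod.smul_snd,
        Pi.smul_apply, smul_eq_mul]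
      rw [Finset.sum_eq_single j]
      · simp
      · intro b _ hb; simp [hb.symm]
      · simp
  rw [this]
  refine Submodule.add_mem _ hv (Submodule.sum_mem _ fun i _ => smul_mem_coneT (exc_mem n s i) ?_)
  have := h2 i; linarith

lemma H_mem (n s : ℕ) (hs : n + 1 ≤ s) : ((1, fun _ => 0) : RCls s) ∈ coneT n s := by
  refine lower_mem n s (hyp_mem n s hs) rfl ?_
  intro i; simp only; split_ifs <;> simp

/-! ### fundamental weights -/

/-- degree of the weight -/
noncomputable def u (n i : ℕ) : ℝ := if i = 0 then 1 / ((n : ℝ) - 1) else (min i (n + 1) : ℕ) / ((n : ℝ) - 1)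

/-- the fundamental weights -/
noncomputable def w (s n i : ℕ) : RCls s := (u n i, fun k => if (k : ℕ) < i then 1 else 0)

lemma degF_w (n i : ℕ) (hi : i ≤ s) : degF n (w s n i) = ((n : ℝ) + 1) * u n i - i := by
  unfold degF w
  simp only
  rw [sum_ite_lt i hi]

lemma ip_w_w (n i j : ℕ) (hij : i ≤ j) (hj : j ≤ s) :
    ip n (w s n i) (w s n j) = ((n : ℝ) - 1) * u n i * u n j - i := by
  unfold ip w
  have : ∀ k : Fin s, ((if (k : ℕ) < i then (1 : ℝ) else 0) * (if (k : ℕ) < j then (1 : ℝ) else 0))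
      = if (k : ℕ) < i then (1 : ℝ) else 0 := by
    intro k; split_ifs <;> simp; omega
  simp only [this]
  rw [sum_ite_lt i (le_trans hij hj)]

lemma ip_a0' (n : ℕ) (z : RCls s) : ip n z (a0 n) = ((n : ℝ) - 1) * z.1 -
    ∑ k : Fin s, if (k : ℕ) < n + 1 then z.2 k else 0 := by
  unfold ip a0
  simp

lemma ip_w_a0 (n i : ℕ) (hn : 2 ≤ n) (hi : i ≤ s) :
    ip n (w s n i) (a0 n) = if i = 0 then 1 else 0 := by
  have hN : (n : ℝ) - 1 ≠ 0 := by
    have : (2 : ℝ) ≤ n := by exact_mod_cast hn
    intro h; linarith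
  rw [ip_a0']
  have h1 : ∀ k : Fin s, (if (k : ℕ) < n + 1 then (w s n i).2 k else 0)
      = if (k : ℕ) < min i (n + 1) then (1 : ℝ) else 0 := by
    intro k
    simp only [w, lt_min_iff]
    split_ifs <;> simp_all
  simp only [h1]
  rw [sum_ite_lt (min i (n + 1)) (le_trans (min_le_left _ _) hi)]
  unfold w u
  by_cases h : i = 0
  · subst h; simp [hN]
  · simp only [if_neg h]
    rw [mul_div_cancel₀ _ hN]; simp

/-- expansion of a class in weights -/
lemma expand (n : ℕ) (hn : 2 ≤ n) (D : RCls s) (hanti : Antitone D.2)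
    (hpos : ∀ i, 0 ≤ D.2 i) (hdom : 0 ≤ ip n D (a0 n)) :
    ∃ c : ℕ → ℝ, (∀ j, 0 ≤ c j) ∧ D = ∑ j ∈ Finset.range (s + 1), c j • w s n j := by
  have hN : (n : ℝ) - 1 ≠ 0 := by
    have : (2 : ℝ) ≤ n := by exact_mod_cast hn
    intro h; linarith
  set mm : ℕ → ℝ := fun k => if h : k < s then D.2 ⟨k, h⟩ else 0 with hmm
  have hmm_anti : ∀ k, mm (k + 1) ≤ mm k := by
    intro k
    simp only [hmm]
    by_cases h1 : k + 1 < s
    · have h2 : k < s := by omega
      rw [dif_pos h1, dif_pos h2]
      exact hanti (by simp [Fin.le_def])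
    · rw [dif_neg h1]
      split_ifs with h2
      · exact hpos _
      · exact le_refl _
  refine ⟨fun j => if j = 0 then ip n D (a0 n) else mm (j - 1) - mm j, ?_, ?_⟩
  · intro j
    simp only
    split_ifs with h
    · exact hdom
    · obtain ⟨k, rfl⟩ : ∃ k, j = k + 1 := ⟨j - 1, by omega⟩
      simpa using hmm_anti k
  · set c : ℕ → ℝ := fun j => if j = 0 then ip n D (a0 n) else mm (j - 1) - mm j with hc
    set D' : RCls s := ∑ j ∈ Finset.range (s + 1), c j • w s n j with hD'
    have e2 : D'.2 = D.2 := by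
      funext k
      have h1 : D'.2 k = ∑ j ∈ Finset.range (s + 1), c j * (if (k : ℕ) < j then 1 else 0) := by
        rw [hD']
        simp [Prod.snd_sum, Finset.sum_apply, w]
      rw [h1, Finset.sum_range_succ']
      simp only [Nat.not_lt_zero, if_false, mul_zero, add_zero]
      have h2 : ∀ j ∈ Finset.range s, c (j + 1) * (if (k : ℕ) < j + 1 then (1 : ℝ) else 0)
          = if (k : ℕ) ≤ j then mm j - mm (j + 1) else 0 := by
        intro j _
        simp only [hc, Nat.add_eq_zero_iff, one_ne_zero, and_false, if_false, Nat.add_sub_cancel]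
        by_cases h : (k : ℕ) ≤ j
        · rw [if_pos h, if_pos (by omega)]; ring
        · rw [if_neg h, if_neg (by omega)]; ring
      rw [Finset.sum_congr rfl h2, ← Finset.sum_filter]
      have h3 : (Finset.range s).filter (fun j => (k : ℕ) ≤ j) = Finset.Ico (k : ℕ) s := by
        ext a; simp; omega
      rw [h3]
      have h4 : ∑ j ∈ Finset.Ico (k : ℕ) s, (mm j - mm (j + 1)) = mm k - mm s := by
        have := Finset.sum_Ico_sub mm (le_of_lt k.2)
        have h5 : ∑ j ∈ Finset.Ico (k : ℕ) s, (mm j - mm (j + 1))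
            = - ∑ j ∈ Finset.Ico (k : ℕ) s, (mm (j + 1) - mm j) := by
          rw [← Finset.sum_neg_distrib]; exact Finset.sum_congr rfl fun _ _ => by ring
        rw [h5, this]; ring
      rw [h4]
      simp [hmm]
    have e3 : ip n D' (a0 n) = ip n D (a0 n) := by
      rw [hD', ip_sum_left]
      simp only [ip_smul_left]
      rw [Finset.sum_eq_single 0]
      · rw [ip_w_a0 n 0 hn (by omega)]; simp [hc]
      · intro b hb hb0
        rw [ip_w_a0 n b hn (by simp at hb; omega), if_neg hb0]; ring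
      · simp
    have e1 : D'.1 = D.1 := by
      rw [ip_a0', ip_a0', e2] at e3
      have : ((n : ℝ) - 1) * D'.1 = ((n : ℝ) - 1) * D.1 := by linarith
      exact mul_left_cancel₀ hN this
    exact (Prod.ext e1 e2).symm


/-! ### balancing lemmas -/

section balance

variable {V : Type*} [AddCommGroup V] [Module ℝ V]

lemma nn_smul_mem {C : Submodule ℝ≥0 V} {v : V} (hv : v ∈ C) {a : ℝ} (ha : 0 ≤ a) : a • v ∈ C := by
  have := C.smul_mem (Real.toNNReal a) hv
  rwa [NNReal.smul_def, Real.coe_toNNReal _ ha] at this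

/-- generic balancing: positive and nonpositive parts. -/
lemma balance {ι : Type*} (t : Finset ι) (v : ι → V) (c : ι → ℝ) (hc : ∀ i ∈ t, 0 ≤ c i)
    (A : V →ₗ[ℝ] ℝ) (hA : 0 ≤ A (∑ i ∈ t, c i • v i)) (C : Submodule ℝ≥0 V)
    (h1 : ∀ i ∈ t, 0 < A (v i) → v i ∈ C)
    (h2 : ∀ c' : ι → ℝ, (∀ i ∈ t, 0 ≤ c' i) → A (∑ i ∈ t, c' i • v i) = 0 →
      ∑ i ∈ t, c' i • v i ∈ C) : ∑ i ∈ t, c i • v i ∈ C := by
  classical
  set P : ℝ := ∑ i ∈ t, if 0 < A (v i) then c i * A (v i) else 0 with hP
  set M : ℝ := ∑ i ∈ t, if 0 < A (v i) then 0 else -(c i * A (v i)) with hM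
  have hPnn : 0 ≤ P := Finset.sum_nonneg fun i hi => by
    split_ifs with h
    · exact mul_nonneg (hc i hi) h.le
    · exact le_refl _
  have hMnn : 0 ≤ M := Finset.sum_nonneg fun i hi => by
    split_ifs with h
    · exact le_refl _
    · have := mul_nonneg (hc i hi) (neg_nonneg.mpr (not_lt.mp h)); linarith
  have hPM : A (∑ i ∈ t, c i • v i) = P - M := by
    rw [map_sum, hP, hM, ← Finset.sum_sub_distrib]
    refine Finset.sum_congr rfl fun i _ => ?_
    rw [map_smul, smul_eq_mul]
    split_ifs <;> ring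
  rcases eq_or_lt_of_le hPnn with hP0 | hPpos
  · have hA0 : A (∑ i ∈ t, c i • v i) = 0 := by
      apply le_antisymm _ hA
      rw [hPM]; linarith
    exact h2 c hc hA0
  · set ρ : ℝ := M / P with hρ
    have hρ0 : 0 ≤ ρ := div_nonneg hMnn hPnn
    have hρ1 : ρ ≤ 1 := by
      rw [hρ, div_le_one hPpos]; rw [hPM] at hA; linarith
    have hρP : ρ * P = M := by rw [hρ]; field_simp
    have hsplit : ∑ i ∈ t, c i • v i = (∑ i ∈ t, (if 0 < A (v i) then (1 - ρ) * c i else 0) • v i)
        + ∑ i ∈ t, (if 0 < A (v i) then ρ * c i else c i) • v i := by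
      rw [← Finset.sum_add_distrib]
      refine Finset.sum_congr rfl fun i _ => ?_
      rw [← add_smul]
      split_ifs
      · congr 1; ring
      · congr 1; ring
    rw [hsplit]
    refine C.add_mem (Submodule.sum_mem _ fun i hi => ?_) (h2 _ ?_ ?_)
    · split_ifs with h
      · exact nn_smul_mem (h1 i hi h) (mul_nonneg (by linarith) (hc i hi))
      · rw [zero_smul]; exact C.zero_mem
    · intro i hi
      split_ifs
      · exact mul_nonneg hρ0 (hc i hi)
      · exact hc i hi
    · rw [map_sum]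
      have : ∑ i ∈ t, A ((if 0 < A (v i) then ρ * c i else c i) • v i) = ρ * P - M := by
        rw [hP, hM, Finset.mul_sum, ← Finset.sum_sub_distrib]
        refine Finset.sum_congr rfl fun i _ => ?_
        rw [map_smul, smul_eq_mul]
        split_ifs <;> ring
      rw [this, hρP]; ring

/-- combinations killed by `A` are combinations of the two-term balanced vectors and the vectors
killed by `A`. -/
lemma balance_zero {ι : Type*} (t : Finset ι) (v : ι → V) (c : ι → ℝ) (hc : ∀ i ∈ t, 0 ≤ c i)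
    (A : V →ₗ[ℝ] ℝ) (hA : A (∑ i ∈ t, c i • v i) = 0) (C : Submodule ℝ≥0 V)
    (h1 : ∀ i ∈ t, ∀ j ∈ t, 0 ≤ A (v i) → A (v j) < 0 → A (v i) • v j - A (v j) • v i ∈ C)
    (h2 : ∀ i ∈ t, A (v i) = 0 → v i ∈ C) : ∑ i ∈ t, c i • v i ∈ C := by
  classical
  set P : ℝ := ∑ i ∈ t, if 0 ≤ A (v i) then c i * A (v i) else 0 with hP
  set M : ℝ := ∑ j ∈ t, if 0 ≤ A (v j) then 0 else -(c j * A (v j)) with hM
  have hPnn : 0 ≤ P := Finset.sum_nonneg fun i hi => by
    split_ifs with h
    · exact mul_nonneg (hc i hi) h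
    · exact le_refl _
  have hterm : ∀ j ∈ t, 0 ≤ (if 0 ≤ A (v j) then 0 else -(c j * A (v j))) := fun i hi => by
    split_ifs with h
    · exact le_refl _
    · have := mul_nonneg (hc i hi) (neg_nonneg.mpr (not_le.mp h).le); linarith
  have hPM : P = M := by
    have : A (∑ i ∈ t, c i • v i) = P - M := by
      rw [map_sum, hP, hM, ← Finset.sum_sub_distrib]
      refine Finset.sum_congr rfl fun i _ => ?_
      rw [map_smul, smul_eq_mul]
      split_ifs <;> ring
    linarith
  rcases eq_or_lt_of_le hPnn with hP0 | hPpos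
  · -- all `c i` with `A (v i) ≠ 0` vanish
    have hM0 : M = 0 := by rw [← hPM, ← hP0]
    have hzero : ∀ i ∈ t, A (v i) ≠ 0 → c i = 0 := by
      intro i hi hne
      rcases lt_or_gt_of_ne hne with h | h
      · have := (Finset.sum_eq_zero_iff_of_nonneg hterm).1 hM0 i hi
        rw [if_neg (not_le.mpr h)] at this
        have h3 : c i * A (v i) = 0 := by linarith
        rcases mul_eq_zero.1 h3 with h4 | h4
        · exact h4
        · exact absurd h4 hne
      · have hterm2 : ∀ j ∈ t, 0 ≤ (if 0 ≤ A (v j) then c j * A (v j) else 0) := fun i hi => by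
          split_ifs with h
          · exact mul_nonneg (hc i hi) h
          · exact le_refl _
        have := (Finset.sum_eq_zero_iff_of_nonneg hterm2).1 hP0.symm i hi
        rw [if_pos h.le] at this
        rcases mul_eq_zero.1 this with h4 | h4
        · exact h4
        · exact absurd h4 hne
    refine Submodule.sum_mem _ fun i hi => ?_
    by_cases h : A (v i) = 0
    · exact nn_smul_mem (h2 i hi h) (hc i hi)
    · rw [hzero i hi h, zero_smul]; exact C.zero_mem
  · have key : ∑ i ∈ t, c i • v i = ∑ i ∈ t, ∑ j ∈ t,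
        (if 0 ≤ A (v i) ∧ A (v j) < 0 then (c i * c j / P) • (A (v i) • v j - A (v j) • v i) else 0) := by
      have hexp : ∀ i ∈ t, ∀ j ∈ t,
          (if 0 ≤ A (v i) ∧ A (v j) < 0 then (c i * c j / P) • (A (v i) • v j - A (v j) • v i) else 0)
          = ((if 0 ≤ A (v i) then c i * A (v i) else 0) / P * (if 0 ≤ A (v j) then 0 else c j)) • v j
          + ((if 0 ≤ A (v j) then 0 else -(c j * A (v j))) / P * (if 0 ≤ A (v i) then c i else 0)) • v i := by
        intro i _ j _
        by_cases hi : 0 ≤ A (v i)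
        · by_cases hj : 0 ≤ A (v j)
          · rw [if_neg (by rintro ⟨_, h⟩; linarith)]
            simp [hj]
          · rw [if_pos ⟨hi, not_le.mp hj⟩, if_pos hi, if_neg hj, if_neg hj, if_pos hi, smul_sub,
              smul_smul, smul_smul, sub_eq_add_neg, ← neg_smul]
            congr 2 <;> ring
        · rw [if_neg (by rintro ⟨h, _⟩; exact hi h)]
          simp [hi]
      rw [Finset.sum_congr rfl fun i hi => Finset.sum_congr rfl fun j hj => hexp i hi j hj]
      simp only [Finset.sum_add_distrib]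
      have e1 : ∑ i ∈ t, ∑ j ∈ t, ((if 0 ≤ A (v i) then c i * A (v i) else 0) / P *
          (if 0 ≤ A (v j) then 0 else c j)) • v j = ∑ j ∈ t, (if 0 ≤ A (v j) then 0 else c j) • v j := by
        rw [Finset.sum_comm]
        refine Finset.sum_congr rfl fun j _ => ?_
        rw [← Finset.sum_smul, ← Finset.sum_mul, ← Finset.sum_div, ← hP, div_self hPpos.ne', one_mul]
      have e2 : ∑ i ∈ t, ∑ j ∈ t, ((if 0 ≤ A (v j) then 0 else -(c j * A (v j))) / P *
          (if 0 ≤ A (v i) then c i else 0)) • v i = ∑ i ∈ t, (if 0 ≤ A (v i) then c i else 0) • v i := by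
        refine Finset.sum_congr rfl fun j _ => ?_
        rw [← Finset.sum_smul, ← Finset.sum_mul, ← Finset.sum_div, ← hM, ← hPM, div_self hPpos.ne', one_mul]
      rw [e1, e2, ← Finset.sum_add_distrib]
      refine Finset.sum_congr rfl fun i _ => ?_
      rw [← add_smul]
      split_ifs <;> simp
    rw [key]
    refine Submodule.sum_mem _ fun i hi => Submodule.sum_mem _ fun j hj => ?_
    split_ifs with h
    · exact nn_smul_mem (h1 i hi j hj h.1 h.2) (div_nonneg (mul_nonneg (hc i hi) (hc j hj)) hPnn)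
    · exact C.zero_mem

end balance


/-! ### numerics of the weights -/

lemma N_pos {n : ℕ} (hn : 2 ≤ n) : (0 : ℝ) < (n : ℝ) - 1 := by
  have : (2 : ℝ) ≤ n := by exact_mod_cast hn
  linarith

lemma u_zero (n : ℕ) : u n 0 = 1 / ((n : ℝ) - 1) := by simp [u]

lemma u_small {n i : ℕ} (h1 : 1 ≤ i) (h2 : i ≤ n + 1) : u n i = i / ((n : ℝ) - 1) := by
  have : i ≠ 0 := by omega
  simp [u, this, min_eq_left h2]

lemma u_big {n i : ℕ} (h2 : n + 1 ≤ i) : u n i = ((n : ℝ) + 1) / ((n : ℝ) - 1) := by
  have : i ≠ 0 := by omega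
  simp [u, this, min_eq_right h2]

lemma eq_of_snd_ip {n : ℕ} (hn : 2 ≤ n) {z z' : RCls s} (h2 : z.2 = z'.2)
    (h : ip n z (a0 n) = ip n z' (a0 n)) : z = z' := by
  refine Prod.ext ?_ h2
  rw [ip_a0', ip_a0', h2] at h
  have : ((n : ℝ) - 1) * z.1 = ((n : ℝ) - 1) * z'.1 := by linarith
  exact mul_left_cancel₀ (N_pos hn).ne' this

lemma orb_support {n : ℕ} {μ : Fin s → ℝ} {c : Prop} {g D : ZCls s} {j : ℕ} (hj : n + 1 ≤ j)
    (hμ : ∀ k : Fin s, μ k = 0 ↔ j ≤ (k : ℕ)) (hg : ∀ k : Fin s, j ≤ (k : ℕ) → g.2 k = 0)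
    (h : Orb n μ c g D) : ∀ k : Fin s, j ≤ (k : ℕ) → D.2 k = 0 := by
  induction h with
  | base => exact hg
  | @perm σ hσ D _ ih =>
      intro k hk
      refine ih (σ k) ?_
      rw [← hμ, hσ, hμ]; exact hk
  | @crem h D _ ih =>
      intro k hk
      simp only [crem0]
      rw [if_neg (by omega)]
      exact ih k hk

/-- reverse Cauchy-Schwarz -/
lemma rcs {n : ℕ} (hn : 2 ≤ n) {g x : RCls s} (hg : 0 ≤ ip n g g) (hg1 : 0 < g.1)
    (hx : 0 < ip n x x) (hx1 : 0 < x.1) : 0 < ip n g x := by
  have hN := N_pos hn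
  set N : ℝ := (n : ℝ) - 1
  set S : ℝ := ∑ i, g.2 i ^ 2 with hS
  set T : ℝ := ∑ i, x.2 i ^ 2 with hT
  set P : ℝ := ∑ i, g.2 i * x.2 i with hP
  have e1 : ip n g g = N * g.1 ^ 2 - S := by
    unfold ip
    have : ∑ i, g.2 i * g.2 i = S := Finset.sum_congr rfl fun i _ => (sq _).symm
    rw [this]; ring
  have e2 : ip n x x = N * x.1 ^ 2 - T := by
    unfold ip
    have : ∑ i, x.2 i * x.2 i = T := Finset.sum_congr rfl fun i _ => (sq _).symm
    rw [this]; ring
  have e3 : ip n g x = N * g.1 * x.1 - P := rfl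
  have cs : P ^ 2 ≤ S * T := Finset.sum_mul_sq_le_sq_mul_sq _ _ _
  have hT0 : 0 ≤ T := Finset.sum_nonneg fun _ _ => sq_nonneg _
  rw [e3]
  have hlt : P ^ 2 < (N * g.1 * x.1) ^ 2 := by
    have h1 : S * T ≤ (N * g.1 ^ 2) * T := by nlinarith
    have h2 : (N * g.1 ^ 2) * T < (N * g.1 ^ 2) * (N * x.1 ^ 2) := by
      apply mul_lt_mul_of_pos_left
      · linarith
      · positivity
    nlinarith
  have hpos : 0 < N * g.1 * x.1 := by positivity
  have := abs_lt_of_sq_lt_sq hlt hpos.le
  have := (abs_lt.mp this).2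
  linarith

/-- existence of an isotropic base class of anticanonical degree zero -/
lemma exists_G (n j : ℕ) (hn : 2 ≤ n) (hj : j ≤ s) (hlt : (n + 1) ^ 2 < (n - 1) * j) :
    ∃ g : ZCls s, Base n s g ∧ (∀ k : Fin s, j ≤ (k : ℕ) → g.2 k = 0) ∧
      degF n (toR g) = 0 ∧ ip n (toR g) (toR g) = 0 ∧ 0 < g.1 := by
  have hj4 : n + 4 ≤ j := by
    by_contra hcon
    push Not at hcon
    have h1 : j ≤ n + 3 := by omega
    obtain ⟨k, rfl⟩ : ∃ k, n = k + 1 := ⟨n - 1, by omega⟩
    simp only [Nat.add_sub_cancel] at hlt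
    have : k * j ≤ k * (k + 1 + 3) := Nat.mul_le_mul_left k h1
    nlinarith
  by_cases h5 : 5 ≤ n
  · refine ⟨_, Base.g3 n s h5 (by omega), ?_, ?_, ?_, by norm_num⟩
    · intro k hk
      have h1 : ¬ (k : ℕ) + 5 < n := by omega
      have h2 : ¬ (k : ℕ) < n + 4 := by omega
      simp [h1, h2]
    · have hm : ∀ i : Fin s, (toR ((3, fun i => if (i : ℕ) + 5 < n then 3 else if (i : ℕ) < n + 4 then 2 else 0) : ZCls s)).2 i
          = 1 * (if (i : ℕ) < n - 5 then (1 : ℝ) else 0) + 2 * (if (i : ℕ) < n + 4 then (1 : ℝ) else 0) := by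
        intro i
        simp only [toR_snd]
        by_cases h1 : (i : ℕ) + 5 < n
        · rw [if_pos h1, if_pos (by omega), if_pos (by omega)]; norm_num
        · rw [if_neg h1, if_neg (show ¬ (i : ℕ) < n - 5 by omega)]
          split_ifs <;> norm_num
      unfold degF
      simp only [hm, Finset.sum_add_distrib, ← Finset.mul_sum]
      rw [sum_ite_lt _ (by omega : n - 5 ≤ s), sum_ite_lt _ (by omega : n + 4 ≤ s)]
      rw [toR_fst]; push_cast [Nat.cast_sub h5]; ring
    · have hm : ∀ i : Fin s, (toR ((3, fun i => if (i : ℕ) + 5 < n then 3 else if (i : ℕ) < n + 4 then 2 else 0) : ZCls s)).2 i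
          * (toR ((3, fun i => if (i : ℕ) + 5 < n then 3 else if (i : ℕ) < n + 4 then 2 else 0) : ZCls s)).2 i
          = 5 * (if (i : ℕ) < n - 5 then (1 : ℝ) else 0) + 4 * (if (i : ℕ) < n + 4 then (1 : ℝ) else 0) := by
        intro i
        simp only [toR_snd]
        by_cases h1 : (i : ℕ) + 5 < n
        · rw [if_pos h1, if_pos (by omega), if_pos (by omega)]; norm_num
        · rw [if_neg h1, if_neg (show ¬ (i : ℕ) < n - 5 by omega)]
          split_ifs <;> norm_num
      unfold ip
      simp only [hm, Finset.sum_add_distrib, ← Finset.mul_sum]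
      rw [sum_ite_lt _ (by omega : n - 5 ≤ s), sum_ite_lt _ (by omega : n + 4 ≤ s)]
      rw [toR_fst]; push_cast [Nat.cast_sub h5]; ring
  · by_cases h3 : 3 ≤ n
    · have hj5 : n + 5 ≤ j := by
        have : n = 3 ∨ n = 4 := by omega
        rcases this with rfl | rfl
        · omega
        · omega
      refine ⟨_, Base.g2 n s h3 (by omega), ?_, ?_, ?_, by norm_num⟩
      · intro k hk
        have h1 : ¬ (k : ℕ) + 3 < n := by omega
        have h2 : ¬ (k : ℕ) < n + 5 := by omega
        simp [h1, h2]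
      · have hm : ∀ i : Fin s, (toR ((2, fun i => if (i : ℕ) + 3 < n then 2 else if (i : ℕ) < n + 5 then 1 else 0) : ZCls s)).2 i
            = 1 * (if (i : ℕ) < n - 3 then (1 : ℝ) else 0) + 1 * (if (i : ℕ) < n + 5 then (1 : ℝ) else 0) := by
          intro i
          simp only [toR_snd]
          by_cases h1 : (i : ℕ) + 3 < n
          · rw [if_pos h1, if_pos (by omega), if_pos (by omega)]; norm_num
          · rw [if_neg h1, if_neg (show ¬ (i : ℕ) < n - 3 by omega)]
            split_ifs <;> norm_num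
        unfold degF
        simp only [hm, Finset.sum_add_distrib, ← Finset.mul_sum]
        rw [sum_ite_lt _ (by omega : n - 3 ≤ s), sum_ite_lt _ (by omega : n + 5 ≤ s)]
        rw [toR_fst]; push_cast [Nat.cast_sub h3]; ring
      · have hm : ∀ i : Fin s, (toR ((2, fun i => if (i : ℕ) + 3 < n then 2 else if (i : ℕ) < n + 5 then 1 else 0) : ZCls s)).2 i
            * (toR ((2, fun i => if (i : ℕ) + 3 < n then 2 else if (i : ℕ) < n + 5 then 1 else 0) : ZCls s)).2 i
            = 3 * (if (i : ℕ) < n - 3 then (1 : ℝ) else 0) + 1 * (if (i : ℕ) < n + 5 then (1 : ℝ) else 0) := by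
          intro i
          simp only [toR_snd]
          by_cases h1 : (i : ℕ) + 3 < n
          · rw [if_pos h1, if_pos (by omega), if_pos (by omega)]; norm_num
          · rw [if_neg h1, if_neg (show ¬ (i : ℕ) < n - 3 by omega)]
            split_ifs <;> norm_num
        unfold ip
        simp only [hm, Finset.sum_add_distrib, ← Finset.mul_sum]
        rw [sum_ite_lt _ (by omega : n - 3 ≤ s), sum_ite_lt _ (by omega : n + 5 ≤ s)]
        rw [toR_fst]; push_cast [Nat.cast_sub h3]; ring
    · have h2 : n = 2 := by omega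
      subst h2
      refine ⟨_, Base.g1 2 s le_rfl (by omega), ?_, ?_, ?_, by norm_num⟩
      · intro k hk
        have h1 : ¬ (k : ℕ) + 2 < 2 := by omega
        have h2 : ¬ (k : ℕ) < 2 + 7 := by omega
        simp only [if_neg h1, if_neg h2]
      · have hm : ∀ i : Fin s, (toR ((3, fun i => if (i : ℕ) + 2 < 2 then 3 else if (i : ℕ) < 2 + 7 then 1 else 0) : ZCls s)).2 i
            = (if (i : ℕ) < 9 then (1 : ℝ) else 0) := by
          intro i
          simp only [toR_snd]
          rw [if_neg (show ¬ (i : ℕ) + 2 < 2 by omega)]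
          split_ifs <;> norm_num
        unfold degF
        simp only [hm]
        rw [sum_ite_lt _ (by omega : 9 ≤ s)]
        rw [toR_fst]; push_cast; ring
      · have hm : ∀ i : Fin s, (toR ((3, fun i => if (i : ℕ) + 2 < 2 then 3 else if (i : ℕ) < 2 + 7 then 1 else 0) : ZCls s)).2 i
            * (toR ((3, fun i => if (i : ℕ) + 2 < 2 then 3 else if (i : ℕ) < 2 + 7 then 1 else 0) : ZCls s)).2 i
            = (if (i : ℕ) < 9 then (1 : ℝ) else 0) := by
          intro i
          simp only [toR_snd]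
          rw [if_neg (show ¬ (i : ℕ) + 2 < 2 by omega)]
          split_ifs <;> norm_num
        unfold ip
        simp only [hm]
        rw [sum_ite_lt _ (by omega : 9 ≤ s)]
        rw [toR_fst]; push_cast; ring

end Pool.Agent.Helper17.Blowup
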