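import Pool.Agent.Helper17.Blowup.Comb

namespace Pool.Agent.Helper17.Blowup

open scoped NNReal

variable {s : ℕ}

lemma w_snd (n i : ℕ) (k : Fin s) : (w s n i).2 k = if (k : ℕ) < i then 1 else 0 := rfl
lemma w_fst (n i : ℕ) : (w s n i).1 = u n i := rfl

/-- big weights of positive degree -/
lemma f1_big {n j : ℕ} (hn : 2 ≤ n) (hs : n + 1 ≤ s) (hj : n + 1 ≤ j) (hjs : j ≤ s)
    (hF : 0 < degF n (w s n j)) : w s n j ∈ coneT n s := by
  have hN := N_pos hn
  have hu := u_big hj
  have hj0 : j ≠ 0 := by omega
  have hFe : ((n : ℝ) + 1) * u n j - j > 0 := by rwa [degF_w n j hjs] at hF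
  have hNu : ((n : ℝ) - 1) * u n j = (n : ℝ) + 1 := by rw [hu]; field_simp
  have hxx : 0 < ip n (w s n j) (w s n j) := by
    rw [ip_w_w n j j le_rfl hjs, hNu]; exact hFe
  have ha0 : ip n (w s n j) (a0 n) = 0 := by rw [ip_w_a0 n j hn hjs, if_neg hj0]
  refine averaging n hn hs (w s n j) hxx (0, fun k => if k = (⟨0, by omega⟩ : Fin s) then -1 else 0)
    ?_ True (fun _ => ha0) (coneT n s) (fun D hD => mem_coneT_of_orb (Base.exc n s _) hD.worb) ?_
  · unfold ip
    simp only [toR_fst, toR_snd, w_snd]
    rw [Finset.sum_eq_single (⟨0, by omega⟩ : Fin s)]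
    · rw [if_pos rfl, if_pos (show ((⟨0, by omega⟩ : Fin s) : ℕ) < j by simp; omega)]; norm_num
    · intro b _ hb; simp [hb]
    · simp
  · rintro z h1 h2 ⟨t, ht, hz⟩
    have hsupp : ∀ k : Fin s, j ≤ (k : ℕ) → z.2 k = 0 := by
      intro k hk
      rw [hz, Prod.snd_sum, Finset.sum_apply]
      refine Finset.sum_eq_zero fun D hD => ?_
      have := orb_support hj (fun k => ?_) ?_ (ht D hD) k hk
      · simp [this]
      · rw [w_snd]; constructor
        · intro h; by_contra hcon; rw [if_pos (by omega)] at h; norm_num at h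
        · intro h; rw [if_neg (by omega)]
      · intro k hk
        have : k ≠ (⟨0, by omega⟩ : Fin s) := by
          intro h; rw [h] at hk; simp at hk; omega
        simp [this]
    refine ⟨z.2 ⟨0, by omega⟩, eq_of_snd_ip hn ?_ ?_⟩
    · funext k
      simp only [Prod.smul_snd, Pi.smul_apply, w_snd, smul_eq_mul]
      by_cases hk : (k : ℕ) < j
      · rw [if_pos hk, mul_one]
        apply h1
        rw [w_snd, w_snd, if_pos hk, if_pos (by simp; omega)]
      · rw [if_neg hk, mul_zero]; exact hsupp k (by omega)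
    · rw [h2 trivial, ip_smul_left, ha0, mul_zero]

/-- big weights of degree zero: `-K` of the three affine cases -/
lemma f1_zero {n j : ℕ} (hn : 2 ≤ n) (hj : n + 1 ≤ j) (hjs : j ≤ s)
    (hF : degF n (w s n j) = 0) : w s n j ∈ coneT n s := by
  have hN := N_pos hn
  have hu := u_big hj
  rw [degF_w n j hjs, hu] at hF
  have hF' : ((n : ℝ) + 1) ^ 2 = ((n : ℝ) - 1) * j := by
    field_simp at hF
    nlinarith
  obtain ⟨k, rfl⟩ : ∃ k, n = k + 1 := ⟨n - 1, by omega⟩
  have hF2 : (k + 2) ^ 2 = k * j := by
    have : ((k : ℝ) + 2) ^ 2 = (k : ℝ) * j := by push_cast at hF'; linarith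
    exact_mod_cast this
  have hk1 : 1 ≤ k := by omega
  have hdvd : k ∣ 4 := by
    have h1 : k ∣ (k + 2) ^ 2 := ⟨j, hF2⟩
    have h2 : (k + 2) ^ 2 = k * (k + 4) + 4 := by ring
    rw [h2] at h1
    exact (Nat.dvd_add_right (Dvd.intro _ rfl)).1 h1
  have hk4 : k ≤ 4 := Nat.le_of_dvd (by norm_num) hdvd
  have hk : (k = 1 ∧ j = 9) ∨ (k = 2 ∧ j = 8) ∨ (k = 4 ∧ j = 9) := by
    interval_cases k
    · left; exact ⟨rfl, by omega⟩
    · right; left; exact ⟨rfl, by omega⟩
    · norm_num at hdvd
    · right; right; exact ⟨rfl, by omega⟩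
  rcases hk with ⟨rfl, rfl⟩ | ⟨rfl, rfl⟩ | ⟨rfl, rfl⟩
  · have := mem_coneT_of_orb (Base.g1 2 s (by norm_num) hjs) Orb.base
    convert this using 1
    refine Prod.ext ?_ ?_
    · rw [w_fst, hu, toR_fst]; norm_num
    · funext i
      rw [w_snd, toR_snd]
      dsimp only
      rw [if_neg (show ¬ (i : ℕ) + 2 < 2 by omega)]
      split_ifs <;> norm_num
  · have := mem_coneT_of_orb (Base.g2 3 s (by norm_num) hjs) Orb.base
    convert this using 1
    refine Prod.ext ?_ ?_
    · rw [w_fst, hu, toR_fst]; norm_num
    · funext i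
      rw [w_snd, toR_snd]
      dsimp only
      rw [if_neg (show ¬ (i : ℕ) + 3 < 3 by omega)]
      split_ifs <;> norm_num
  · have := smul_mem_coneT (mem_coneT_of_orb (Base.g3 5 s (by norm_num) hjs) Orb.base)
      (show (0 : ℝ) ≤ 1 / 2 by norm_num)
    convert this using 1
    refine Prod.ext ?_ ?_
    · rw [w_fst, hu, Prod.smul_fst, toR_fst]; norm_num
    · funext i
      rw [w_snd, Prod.smul_snd, Pi.smul_apply, toR_snd]
      dsimp only
      rw [if_neg (show ¬ (i : ℕ) + 5 < 5 by omega)]
      split_ifs <;> norm_num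

/-- all weights with `A > 0` and nonnegative degree -/
lemma f1 {n j : ℕ} (hn : 2 ≤ n) (hs : n + 1 ≤ s) (hjs : j ≤ s)
    (hF : 0 ≤ degF n (w s n j)) (hA : 0 < (w s n j).1 - (w s n j).2 ⟨0, by omega⟩) :
    w s n j ∈ coneT n s := by
  have hN := N_pos hn
  rcases Nat.eq_zero_or_pos j with rfl | hjpos
  · have := smul_mem_coneT (H_mem n s hs) (show (0 : ℝ) ≤ 1 / ((n : ℝ) - 1) by positivity)
    convert this using 1
    refine Prod.ext ?_ ?_
    · simp [w_fst, u_zero]
    · funext k; simp [w_snd]
  · rcases lt_or_ge j (n + 1) with hj | hj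
    · rw [w_fst, w_snd, u_small hjpos (by omega), if_pos (by simpa using hjpos)] at hA
      have hjn : n ≤ j := by
        by_contra hcon
        push Not at hcon
        have : (j : ℝ) ≤ (n : ℝ) - 1 := by
          have : j + 1 ≤ n := hcon
          have : (j : ℝ) + 1 ≤ n := by exact_mod_cast this
          linarith
        have : (j : ℝ) / ((n : ℝ) - 1) ≤ 1 := (div_le_one hN).2 this
        linarith
      have hjn' : j = n := by omega
      subst hjn'
      have h1 := hyp_mem j s hs
      have h2 := smul_mem_coneT (H_mem j s hs) (show (0 : ℝ) ≤ 1 / ((j : ℝ) - 1) by positivity)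
      have := (coneT j s).add_mem h1 h2
      convert this using 1
      refine Prod.ext ?_ ?_
      · rw [w_fst, u_small hjpos (by omega)]
        simp only [Prod.fst_add, Prod.smul_fst, smul_eq_mul, mul_one]
        field_simp; ring
      · funext k
        simp [w_snd]
    · rcases eq_or_lt_of_le hF with h | h
      · exact f1_zero hn hj hjs h.symm
      · exact f1_big hn hs hj hjs h

/-- the balanced two-term vectors with `A > 0` -/
lemma f2 {n i j : ℕ} (hn : 2 ≤ n) (hs : n + 1 ≤ s) (his : i ≤ s) (hjs : j ≤ s)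
    (hFi : 0 ≤ degF n (w s n i)) (hFj : degF n (w s n j) < 0)
    (hA : 0 < (degF n (w s n i) • w s n j - degF n (w s n j) • w s n i).1 -
      (degF n (w s n i) • w s n j - degF n (w s n j) • w s n i).2 ⟨0, by omega⟩) :
    degF n (w s n i) • w s n j - degF n (w s n j) • w s n i ∈ coneT n s := by
  have hN := N_pos hn
  set a : ℝ := degF n (w s n i) with ha
  set b : ℝ := - degF n (w s n j) with hb
  have hbpos : 0 < b := by rw [hb]; linarith
  have hxe : a • w s n j - degF n (w s n j) • w s n i = a • w s n j + b • w s n i := by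
    rw [hb, neg_smul, sub_eq_add_neg]
  rw [hxe] at hA ⊢
  have hjn : n + 1 ≤ j := by
    by_contra hcon
    push Not at hcon
    rw [degF_w n j hjs] at hFj
    rcases Nat.eq_zero_or_pos j with rfl | hjpos
    · rw [u_zero] at hFj
      have : (0:ℝ) < ((n : ℝ) + 1) * (1 / ((n : ℝ) - 1)) := by positivity
      simp at hFj; simp at this; linarith
    · rw [u_small hjpos (by omega)] at hFj
      have h1 : (0 : ℝ) < j := by exact_mod_cast hjpos
      have : ((n : ℝ) + 1) * ((j : ℝ) / ((n : ℝ) - 1)) - j = 2 * j / ((n : ℝ) - 1) := by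
        field_simp; ring
      rw [this] at hFj
      have : 0 < 2 * (j : ℝ) / ((n : ℝ) - 1) := by positivity
      linarith
  have hj0 : j ≠ 0 := by omega
  have huj := u_big hjn
  have hNuj : ((n : ℝ) - 1) * u n j = (n : ℝ) + 1 := by rw [huj]; field_simp
  have hFj' : degF n (w s n j) = ((n : ℝ) + 1) * u n j - j := degF_w n j hjs
  have hFi' : a = ((n : ℝ) + 1) * u n i - i := degF_w n i his
  have hbe : b = j - ((n : ℝ) + 1) * u n j := by rw [hb, hFj']; ring
  have hij : i < j := by
    rcases lt_or_ge i (n + 1) with h | h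
    · omega
    · have hui := u_big h
      have : ((n : ℝ) + 1) * u n i - i ≥ 0 := by rw [← hFi']; exact hFi
      have h2 : (i : ℝ) < j := by
        rw [hui] at this; rw [huj] at hbe; linarith
      exact_mod_cast h2
  have hwjj : ip n (w s n j) (w s n j) = -b := by
    rw [ip_w_w n j j le_rfl hjs, hNuj, hbe]; ring
  have hwij : ip n (w s n i) (w s n j) = a := by
    rw [ip_w_w n i j hij.le hjs, hFi']
    have : ((n : ℝ) - 1) * u n i * u n j = (((n : ℝ) - 1) * u n j) * u n i := by ring
    rw [this, hNuj]
  rcases eq_or_lt_of_le hFi with ha0 | hapos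
  · -- `a = 0`
    rw [← ha0, zero_smul, zero_add] at hA ⊢
    refine smul_mem_coneT (f1 hn hs his (by rw [← ha, ← ha0]) ?_) hbpos.le
    simp only [Prod.smul_fst, Prod.smul_snd, Pi.smul_apply, smul_eq_mul] at hA
    have : 0 < b * ((w s n i).1 - (w s n i).2 ⟨0, by omega⟩) := by linarith
    exact (mul_pos_iff_of_pos_left hbpos).1 this
  · -- main case
    set x : RCls s := a • w s n j + b • w s n i with hx
    have hx2 : ∀ k : Fin s, x.2 k = a * (if (k : ℕ) < j then 1 else 0) + b * (if (k : ℕ) < i then 1 else 0) := by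
      intro k; simp [hx, w_snd]
    have hx1 : x.1 = a * u n j + b * u n i := by simp [hx, w_fst]
    have hui0 : 0 < u n i := by
      unfold u
      split_ifs with h
      · positivity
      · have : 0 < min i (n + 1) := by
          apply lt_min <;> omega
        have : (0 : ℝ) < ((min i (n + 1) : ℕ) : ℝ) := by exact_mod_cast this
        positivity
    have huj0 : 0 < u n j := by rw [huj]; positivity
    have hx1pos : 0 < x.1 := by rw [hx1]; positivity
    have hxx : 0 < ip n x x := by
      have e : ip n x x = b * (a ^ 2 + b * ip n (w s n i) (w s n i)) := by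
        rw [hx]
        simp only [ip_add_left, ip_add_right, ip_smul_left, ip_smul_right]
        rw [hwjj, ip_comm n (w s n j) (w s n i), hwij]; ring
      rw [e]
      apply mul_pos hbpos
      rw [ip_w_w n i i le_rfl his]
      rcases Nat.eq_zero_or_pos i with rfl | hipos
      · rw [u_zero]
        have : ((n : ℝ) - 1) * (1 / ((n : ℝ) - 1)) * (1 / ((n : ℝ) - 1)) - ((0 : ℕ) : ℝ) = 1 / ((n : ℝ) - 1) := by
          field_simp; simp
        rw [this]; positivity
      · rcases le_or_gt (n + 1) i with h | h
        · have hui := u_big h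
          have hNui : ((n : ℝ) - 1) * u n i = (n : ℝ) + 1 := by rw [hui]; field_simp
          have : ((n : ℝ) - 1) * u n i * u n i - i = a := by rw [hNui, hFi']
          rw [this]; positivity
        · have hui := u_small hipos h.le
          -- use hA
          have hA' : 0 < a * (u n j - 1) + b * (u n i - 1) := by
            have h00 : (((⟨0, by omega⟩ : Fin s) : ℕ) < j) := by simp; omega
            have h01 : (((⟨0, by omega⟩ : Fin s) : ℕ) < i) := by simpa using hipos
            rw [hx1, hx2, if_pos h00, if_pos h01] at hA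
            linarith
          have hi0 : (0 : ℝ) < i := by exact_mod_cast hipos
          have hae : a = 2 * i / ((n : ℝ) - 1) := by
            rw [hFi', hui]; field_simp; ring
          have huj1 : u n j - 1 = 2 / ((n : ℝ) - 1) := by rw [huj]; field_simp; ring
          have hq : ((n : ℝ) - 1) * u n i * u n i - i = i * (u n i - 1) := by
            rw [hui]; field_simp
          rw [hq]
          have h3 : 0 < i * (a * (u n j - 1) + b * (u n i - 1)) := mul_pos hi0 hA'
          have h4 : i * (a * (u n j - 1)) = a ^ 2 := by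
            rw [huj1]
            have : (i : ℝ) * (a * (2 / ((n : ℝ) - 1))) = a * (2 * i / ((n : ℝ) - 1)) := by ring
            rw [this, ← hae]; ring
          nlinarith
    have hlt : (n + 1) ^ 2 < (n - 1) * j := by
      have h1 : ((n : ℝ) + 1) * (((n : ℝ) + 1) / ((n : ℝ) - 1)) - j < 0 := by
        rw [← huj, ← hFj']; exact hFj
      have h2 : ((n : ℝ) + 1) ^ 2 < ((n : ℝ) - 1) * j := by
        field_simp at h1
        nlinarith
      have h3 : (((n + 1) ^ 2 : ℕ) : ℝ) < (((n - 1) * j : ℕ) : ℝ) := by
        push_cast [Nat.cast_sub (show 1 ≤ n by omega)]; exact h2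
      exact_mod_cast h3
    obtain ⟨g, hgB, hgs, hgF, hgg, hg1⟩ := exists_G n j hn hjs hlt
    have hgx : 0 < ip n (toR g) x :=
      rcs hn hgg.ge (by simpa using hg1) hxx hx1pos
    have hca0 : i ≠ 0 → ip n x (a0 n) = 0 := by
      intro hi
      rw [hx, ip_add_left, ip_smul_left, ip_smul_left, ip_w_a0 n j hn hjs, ip_w_a0 n i hn his,
        if_neg hj0, if_neg hi]; ring
    refine averaging n hn hs x hxx g hgx (i ≠ 0) hca0 (coneT n s)
      (fun D hD => mem_coneT_of_orb hgB hD.worb) ?_
    rintro z h1 h2 ⟨t, ht, hz⟩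
    have hlev : ∀ k : Fin s, x.2 k = 0 ↔ j ≤ (k : ℕ) := by
      intro k
      rw [hx2]
      constructor
      · intro h
        by_contra hcon
        push Not at hcon
        rw [if_pos hcon] at h
        split_ifs at h
        · linarith
        · linarith
      · intro h
        rw [if_neg (by omega), if_neg (by omega)]; ring
    have hsupp : ∀ k : Fin s, j ≤ (k : ℕ) → z.2 k = 0 := by
      intro k hk
      rw [hz, Prod.snd_sum, Finset.sum_apply]
      refine Finset.sum_eq_zero fun D hD => ?_
      have := orb_support hjn hlev hgs (ht D hD) k hk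
      simp [this]
    have hdeg : degF n z = 0 := by
      have : degF n z = ∑ D ∈ t, degF n (toR D) := by
        rw [hz]; exact map_sum (degFL s n) _ _
      rw [this]
      refine Finset.sum_eq_zero fun D hD => ?_
      rw [(ht D hD).degF hs, hgF]
    set cj : ℝ := z.2 ⟨j - 1, by omega⟩ with hcj
    have hmid : ∀ k : Fin s, i ≤ (k : ℕ) → (k : ℕ) < j → z.2 k = cj := by
      intro k hk1 hk2
      apply h1
      rw [hx2, hx2, if_pos hk2, if_neg (by omega), if_pos (by simp; omega), if_neg (by simp; omega)]
    obtain ⟨ci, hze⟩ : ∃ ci : ℝ, z = cj • w s n j + ci • w s n i := by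
      rcases Nat.eq_zero_or_pos i with hi0 | hipos
      · refine ⟨ip n z (a0 n), eq_of_snd_ip hn ?_ ?_⟩
        · funext k
          simp only [Prod.snd_add, Prod.smul_snd, Pi.add_apply, Pi.smul_apply, w_snd, smul_eq_mul]
          rw [if_neg (show ¬ (k : ℕ) < i by omega)]
          by_cases hk : (k : ℕ) < j
          · rw [if_pos hk, hmid k (by omega) hk]; ring
          · rw [if_neg hk, hsupp k (by omega)]; ring
        · rw [ip_add_left, ip_smul_left, ip_smul_left, ip_w_a0 n j hn hjs, ip_w_a0 n i hn his,
            if_neg hj0, if_pos hi0]; ring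
      · refine ⟨z.2 ⟨0, by omega⟩ - cj, eq_of_snd_ip hn ?_ ?_⟩
        · funext k
          simp only [Prod.snd_add, Prod.smul_snd, Pi.add_apply, Pi.smul_apply, w_snd, smul_eq_mul]
          by_cases hk : (k : ℕ) < j
          · by_cases hk' : (k : ℕ) < i
            · rw [if_pos hk, if_pos hk']
              have : z.2 k = z.2 ⟨0, by omega⟩ := by
                apply h1
                rw [hx2, hx2, if_pos hk, if_pos hk', if_pos (by simp; omega), if_pos (by simpa using hipos)]
              rw [this]; ring
            · rw [if_pos hk, if_neg hk', hmid k (by omega) hk]; ring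
          · rw [if_neg hk, if_neg (by omega), hsupp k (by omega)]; ring
        · rw [h2 (by omega), ip_add_left, ip_smul_left, ip_smul_left, ip_w_a0 n j hn hjs,
            ip_w_a0 n i hn his, if_neg hj0, if_neg (by omega)]; ring
    have hrel : ci * a = cj * b := by
      rw [hze, degF_add, degF_smul, degF_smul, ← ha] at hdeg
      have : degF n (w s n j) = -b := by rw [hb]; ring
      rw [this] at hdeg; linarith
    refine ⟨cj / a, ?_⟩
    rw [hze, hx, smul_add, smul_smul, smul_smul]
    congr 2
    · field_simp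
    · field_simp; linarith

end Pool.Agent.Helper17.Blowup
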