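import Pool.Agent.Helper17.Blowup.Comb2

namespace Pool.Agent.Helper17.Blowup

open scoped NNReal

variable {s : ℕ}

/-- dominant real classes of nonnegative anticanonical degree -/
structure Dom (n : ℕ) (E : RCls s) : Prop where
  anti : Antitone E.2
  nonneg : ∀ i, 0 ≤ E.2 i
  dom : 0 ≤ ip n E (a0 n)
  deg : 0 ≤ degF n E

lemma Dom.zero (n : ℕ) : Dom n (0 : RCls s) where
  anti := fun _ _ _ => le_rfl
  nonneg := fun _ => le_rfl
  dom := by rw [ip_zero_left]
  deg := by simp [degF]

lemma Dom.add {n : ℕ} {E E' : RCls s} (h : Dom n E) (h' : Dom n E') : Dom n (E + E') where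
  anti := fun i j hij => add_le_add (h.anti hij) (h'.anti hij)
  nonneg := fun i => add_nonneg (h.nonneg i) (h'.nonneg i)
  dom := by rw [ip_add_left]; exact add_nonneg h.dom h'.dom
  deg := by rw [degF_add]; exact add_nonneg h.deg h'.deg

lemma Dom.smul {n : ℕ} {E : RCls s} (h : Dom n E) {a : ℝ} (ha : 0 ≤ a) : Dom n (a • E) where
  anti := fun i j hij => mul_le_mul_of_nonneg_left (h.anti hij) ha
  nonneg := fun i => mul_nonneg ha (h.nonneg i)
  dom := by rw [ip_smul_left]; exact mul_nonneg ha h.dom
  deg := by rw [degF_smul]; exact mul_nonneg ha h.deg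

lemma Dom.sum {n : ℕ} {ι : Type*} (t : Finset ι) (f : ι → RCls s) (h : ∀ i ∈ t, Dom n (f i)) :
    Dom n (∑ i ∈ t, f i) := by
  classical
  induction t using Finset.induction_on with
  | empty => simpa using Dom.zero n
  | insert a t ha ih =>
      rw [Finset.sum_insert ha]
      exact (h a (Finset.mem_insert_self a t)).add (ih fun i hi => h i (Finset.mem_insert_of_mem hi))

lemma w_anti (n i : ℕ) : Antitone (w s n i).2 := by
  intro a b hab
  simp only [w_snd]
  have : (a : ℕ) ≤ b := hab
  split_ifs
  · exact le_rfl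
  · omega
  · norm_num
  · exact le_rfl

lemma w_nonneg (n i : ℕ) (k : Fin s) : 0 ≤ (w s n i).2 k := by
  simp only [w_snd]; split_ifs <;> norm_num

/-- `A` functional -/
noncomputable def AL (s : ℕ) (hs : 0 < s) : RCls s →ₗ[ℝ] ℝ where
  toFun := fun D => D.1 - D.2 ⟨0, hs⟩
  map_add' := fun D E => by simp only [Prod.fst_add, Prod.snd_add, Pi.add_apply]; ring
  map_smul' := fun a D => by
    simp only [Prod.smul_fst, Prod.smul_snd, Pi.smul_apply, smul_eq_mul, RingHom.id_apply]; ring

lemma step {n : ℕ} (hn : 2 ≤ n) (hs : n + 1 ≤ s)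
    (f3 : ∀ E : RCls s, Dom n E → E.1 = E.2 ⟨0, by omega⟩ → E ∈ coneT n s)
    (D : RCls s) (hD : Dom n D) (hA : D.2 ⟨0, by omega⟩ ≤ D.1) : D ∈ coneT n s := by
  classical
  set S : Set (RCls s) := {x | ∃ j, j ≤ s ∧ 0 ≤ degF n (w s n j) ∧ x = w s n j} ∪
    {x | ∃ i j, i ≤ s ∧ j ≤ s ∧ 0 ≤ degF n (w s n i) ∧ degF n (w s n j) < 0 ∧
      x = degF n (w s n i) • w s n j - degF n (w s n j) • w s n i} with hS
  have hDS : D ∈ Submodule.span ℝ≥0 S := by
    obtain ⟨c, hc, he⟩ := expand n hn D hD.anti hD.nonneg hD.dom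
    rw [he]
    have hdeg := hD.deg
    rw [he] at hdeg
    refine balance (Finset.range (s + 1)) (w s n) c (fun i _ => hc i) (degFL s n) hdeg _ ?_ ?_
    · intro i hi hpos
      exact Submodule.subset_span (Or.inl ⟨i, by simp at hi; omega, hpos.le, rfl⟩)
    · intro c' hc' hz
      refine balance_zero (Finset.range (s + 1)) (w s n) c' hc' (degFL s n) hz _ ?_ ?_
      · intro i hi j hj h1 h2
        exact Submodule.subset_span (Or.inr ⟨i, j, by simp at hi; omega, by simp at hj; omega, h1, h2, rfl⟩)
      · intro i hi h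
        exact Submodule.subset_span (Or.inl ⟨i, by simp at hi; omega, by rw [degFL_apply] at h; rw [h], rfl⟩)
  have hSdom : ∀ x ∈ S, Dom n x := by
    have hwip : ∀ j, j ≤ s → 0 ≤ ip n (w s n j) (a0 n) := by
      intro j hj; rw [ip_w_a0 n j hn hj]; split_ifs <;> norm_num
    rintro x (⟨j, hj, hF, rfl⟩ | ⟨i, j, hi, hj, hFi, hFj, rfl⟩)
    · exact ⟨w_anti n j, w_nonneg n j, hwip j hj, hF⟩
    · have hx : degF n (w s n i) • w s n j - degF n (w s n j) • w s n i
          = degF n (w s n i) • w s n j + (-degF n (w s n j)) • w s n i := by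
        rw [neg_smul, sub_eq_add_neg]
      have hb : 0 ≤ -degF n (w s n j) := by linarith
      rw [hx]
      refine ⟨?_, ?_, ?_, ?_⟩
      · intro k l hkl
        exact add_le_add (mul_le_mul_of_nonneg_left (w_anti n j hkl) hFi)
          (mul_le_mul_of_nonneg_left (w_anti n i hkl) hb)
      · intro k
        exact add_nonneg (mul_nonneg hFi (w_nonneg n j k)) (mul_nonneg hb (w_nonneg n i k))
      · rw [ip_add_left, ip_smul_left, ip_smul_left]
        exact add_nonneg (mul_nonneg hFi (hwip j hj)) (mul_nonneg hb (hwip i hi))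
      · rw [degF_add, degF_smul, degF_smul]
        apply le_of_eq; ring
  rw [Submodule.mem_span_set'] at hDS
  obtain ⟨m, f, g, hfg⟩ := hDS
  have hD' : D = ∑ i, (f i : ℝ) • (g i : RCls s) := by
    rw [← hfg]; exact Finset.sum_congr rfl fun i _ => by rw [NNReal.smul_def]
  have hA' : 0 ≤ AL s (by omega) (∑ i, (f i : ℝ) • (g i : RCls s)) := by
    rw [← hD']; show 0 ≤ D.1 - D.2 ⟨0, _⟩; linarith
  rw [hD']
  refine balance Finset.univ (fun i => (g i : RCls s)) (fun i => (f i : ℝ)) (fun i _ => (f i).2)
    (AL s (by omega)) hA' (coneT n s) ?_ ?_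
  · intro i _ hpos
    have hpos' : 0 < (g i : RCls s).1 - (g i : RCls s).2 ⟨0, by omega⟩ := hpos
    rcases (g i).2 with ⟨j, hj, hF, hx⟩ | ⟨a, b, ha, hb, hFa, hFb, hx⟩
    · rw [hx] at hpos' ⊢
      exact f1 hn hs hj hF hpos'
    · rw [hx] at hpos' ⊢
      exact f2 hn hs ha hb hFa hFb hpos'
  · intro c' hc' hz
    refine f3 _ (Dom.sum _ _ fun i hi => (hSdom _ (g i).2).smul (hc' i hi)) ?_
    have : (∑ i, c' i • (g i : RCls s)).1 - (∑ i, c' i • (g i : RCls s)).2 ⟨0, by omega⟩ = 0 := hz
    linarith

/-- the base case of the `A`-tight classes -/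
lemma f3_two (hs : 3 ≤ s) (E : RCls s) (hE : Dom 2 E) (h0 : E.1 = E.2 ⟨0, by omega⟩) :
    E ∈ coneT 2 s := by
  have hdom := hE.dom
  rw [ip_a0'] at hdom
  have h2 : E.2 ⟨0, by omega⟩ + E.2 ⟨1, by omega⟩ ≤ ∑ k : Fin s, if (k : ℕ) < 2 + 1 then E.2 k else 0 := by
    have hne : (⟨0, by omega⟩ : Fin s) ≠ ⟨1, by omega⟩ := by simp
    rw [← Finset.sum_pair (f := E.2) hne]
    have : ∑ x ∈ ({⟨0, by omega⟩, ⟨1, by omega⟩} : Finset (Fin s)), E.2 x
        = ∑ x ∈ ({⟨0, by omega⟩, ⟨1, by omega⟩} : Finset (Fin s)), (if (x : ℕ) < 2 + 1 then E.2 x else 0) := by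
      refine Finset.sum_congr rfl fun x hx => ?_
      simp only [Finset.mem_insert, Finset.mem_singleton] at hx
      rcases hx with rfl | rfl <;> simp
    rw [this]
    refine Finset.sum_le_sum_of_subset_of_nonneg (Finset.subset_univ _) fun i _ _ => ?_
    split_ifs
    · exact hE.nonneg i
    · exact le_rfl
  have h1 : E.2 ⟨1, by omega⟩ ≤ 0 := by
    push_cast at hdom
    linarith
  have h3 : ∀ k : Fin s, 1 ≤ (k : ℕ) → E.2 k = 0 := by
    intro k hk
    apply le_antisymm _ (hE.nonneg k)
    exact le_trans (hE.anti (show (⟨1, by omega⟩ : Fin s) ≤ k from hk)) h1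
  have h4 : ((1, fun k => if (k : ℕ) < 1 then 1 else 0) : RCls s) ∈ coneT 2 s := by
    refine lower_mem 2 s (hyp_mem 2 s hs) rfl ?_
    intro i; simp only
    split_ifs
    · exact le_rfl
    · omega
    · norm_num
    · exact le_rfl
  have h5 : E = E.1 • ((1, fun k => if (k : ℕ) < 1 then 1 else 0) : RCls s) := by
    refine Prod.ext ?_ ?_
    · simp
    · funext k
      simp only [Prod.smul_snd, Pi.smul_apply, smul_eq_mul]
      by_cases hk : (k : ℕ) < 1
      · rw [if_pos hk, mul_one, h0]
        have hk0 : k = ⟨0, by omega⟩ := by ext; simp; omega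
        rw [hk0]
      · rw [if_neg hk, mul_zero]; exact h3 k (by omega)
  rw [h5]
  refine smul_mem_coneT h4 ?_
  rw [h0]; exact hE.nonneg _

/-! ### cones over lower-dimensional classes -/

/-- cone construction on integral classes -/
def conez (D : ZCls s) : ZCls (s + 1) := (D.1, Fin.cons D.1 D.2)

/-- cone construction on real classes -/
def coneMap (s : ℕ) : RCls s →ₗ[ℝ≥0] RCls (s + 1) where
  toFun := fun D => (D.1, Fin.cons D.1 D.2)
  map_add' := fun D E => by
    refine Prod.ext rfl ?_
    funext i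
    refine Fin.cases ?_ (fun j => ?_) i <;> simp
  map_smul' := fun a D => by
    refine Prod.ext rfl ?_
    funext i
    refine Fin.cases ?_ (fun j => ?_) i <;> simp

lemma toR_conez (D : ZCls s) : toR (conez D) = coneMap s (toR D) := by
  refine Prod.ext rfl ?_
  funext i
  refine Fin.cases ?_ (fun j => ?_) i
  · simp [conez, coneMap]
  · simp [conez, coneMap]

lemma conez_permC (σ : Equiv.Perm (Fin s)) (D : ZCls s) :
    conez (permC σ D) = permC (Equiv.Perm.decomposeFin.symm (0, σ)) (conez D) := by
  refine Prod.ext rfl ?_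
  funext i
  refine Fin.cases ?_ (fun j => ?_) i
  · simp [conez, permC]
  · simp [conez, permC, Equiv.Perm.decomposeFin_symm_apply_succ]

lemma conez_crem0 (n : ℕ) (D : ZCls s) : conez (crem0 n D) = crem0 (n + 1) (conez D) := by
  have hsum : (∑ i : Fin (s + 1), if (i : ℕ) < n + 1 + 1 then (conez D).2 i else 0)
      = D.1 + ∑ i : Fin s, if (i : ℕ) < n + 1 then D.2 i else 0 := by
    rw [Fin.sum_univ_succ]
    simp [conez]
  refine Prod.ext ?_ ?_
  · simp only [conez, crem0] at hsum ⊢
    rw [hsum]; push_cast; ring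
  · funext i
    refine Fin.cases ?_ (fun j => ?_) i
    · simp only [conez, crem0] at hsum ⊢
      rw [hsum]; simp only [Fin.cons_zero, Fin.val_zero]
      rw [if_pos (by omega)]; push_cast; ring
    · simp only [conez, crem0] at hsum ⊢
      rw [hsum]; simp only [Fin.cons_succ, Fin.val_succ]
      by_cases h : (j : ℕ) < n + 1
      · rw [if_pos h, if_pos (by omega)]; push_cast; ring
      · rw [if_neg h, if_neg (by omega)]

lemma conez_base {n s : ℕ} {g : ZCls s} (h : Base n s g) : Base (n + 1) (s + 1) (conez g) := by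
  cases h with
  | exc i =>
      have := Base.exc (n + 1) (s + 1) i.succ
      convert this using 1
      refine Prod.ext rfl ?_
      funext j
      refine Fin.cases ?_ (fun k => ?_) j
      · simp [conez, (Fin.succ_ne_zero i).symm]
      · simp [conez]
  | g1 hn hs =>
      have := Base.g1 (n + 1) (s + 1) (by omega) (by omega)
      convert this using 1
      refine Prod.ext rfl ?_
      funext j
      refine Fin.cases ?_ (fun k => ?_) j
      · simp only [conez, Fin.cons_zero]; rw [if_pos (by simp; omega)]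
      · simp only [conez, Fin.cons_succ, Fin.val_succ]
        by_cases h1 : (k : ℕ) + 2 < n
        · rw [if_pos h1, if_pos (by omega)]
        · rw [if_neg h1, if_neg (show ¬ (k : ℕ) + 1 + 2 < n + 1 by omega)]
          by_cases h2 : (k : ℕ) < n + 7
          · rw [if_pos h2, if_pos (by omega)]
          · rw [if_neg h2, if_neg (by omega)]
  | g2 hn hs =>
      have := Base.g2 (n + 1) (s + 1) (by omega) (by omega)
      convert this using 1
      refine Prod.ext rfl ?_
      funext j
      refine Fin.cases ?_ (fun k => ?_) j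
      · simp only [conez, Fin.cons_zero]; rw [if_pos (by simp; omega)]
      · simp only [conez, Fin.cons_succ, Fin.val_succ]
        by_cases h1 : (k : ℕ) + 3 < n
        · rw [if_pos h1, if_pos (by omega)]
        · rw [if_neg h1, if_neg (show ¬ (k : ℕ) + 1 + 3 < n + 1 by omega)]
          by_cases h2 : (k : ℕ) < n + 5
          · rw [if_pos h2, if_pos (by omega)]
          · rw [if_neg h2, if_neg (by omega)]
  | g3 hn hs =>
      have := Base.g3 (n + 1) (s + 1) (by omega) (by omega)
      convert this using 1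
      refine Prod.ext rfl ?_
      funext j
      refine Fin.cases ?_ (fun k => ?_) j
      · simp only [conez, Fin.cons_zero]; rw [if_pos (by simp; omega)]
      · simp only [conez, Fin.cons_succ, Fin.val_succ]
        by_cases h1 : (k : ℕ) + 5 < n
        · rw [if_pos h1, if_pos (by omega)]
        · rw [if_neg h1, if_neg (show ¬ (k : ℕ) + 1 + 5 < n + 1 by omega)]
          by_cases h2 : (k : ℕ) < n + 4
          · rw [if_pos h2, if_pos (by omega)]
          · rw [if_neg h2, if_neg (by omega)]

lemma conez_worb {n : ℕ} {g D : ZCls s} (h : WOrb n g D) : WOrb (n + 1) (conez g) (conez D) := by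
  unfold WOrb at h
  induction h with
  | base => exact Orb.base
  | @perm σ hσ D _ ih => rw [conez_permC]; exact Orb.perm _ (fun _ => rfl) ih
  | @crem h D _ ih => rw [conez_crem0]; exact Orb.crem trivial ih

lemma coneMap_mem {n s : ℕ} {v : RCls s} (hv : v ∈ coneT n s) : coneMap s v ∈ coneT (n + 1) (s + 1) := by
  have : coneT n s ≤ (coneT (n + 1) (s + 1)).comap (coneMap s) := by
    unfold coneT
    rw [Submodule.span_le]
    rintro v ⟨g, D, hg, hD, rfl⟩
    show coneMap s (toR D) ∈ Submodule.span ℝ≥0 (genT (n + 1) (s + 1))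
    rw [← toR_conez]
    exact Submodule.subset_span ⟨conez g, conez D, conez_base hg, conez_worb hD, rfl⟩
  exact this hv

/-- **Theorem A.** Dominant classes with `0 ≤ m_i ≤ d` and nonnegative anticanonical degree lie in
the cone spanned by Weyl translates of the base classes. -/
theorem dominant_mem (n : ℕ) (hn : 2 ≤ n) : ∀ (s : ℕ) (hs : n + 1 ≤ s) (D : RCls s), Dom n D →
    D.2 ⟨0, by omega⟩ ≤ D.1 → D ∈ coneT n s := by
  induction n, hn using Nat.le_induction with
  | base =>
      intro s hs D hD hA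
      exact step le_rfl hs (fun E hE h0 => f3_two hs E hE h0) D hD hA
  | succ n hn ih =>
      intro s hs D hD hA
      obtain ⟨t, rfl⟩ : ∃ t, s = t + 1 := ⟨s - 1, by omega⟩
      refine step (by omega) hs (fun E hE h0 => ?_) D hD hA
      have hE0 : E.1 = E.2 0 := h0
      -- `E` is a cone
      set E' : RCls t := (E.1, fun i => E.2 i.succ) with hE'
      have hEe : E = coneMap t E' := by
        refine Prod.ext rfl ?_
        funext i
        refine Fin.cases ?_ (fun j => ?_) i
        · show E.2 0 = _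
          simp [coneMap, hE', hE0]
        · simp [coneMap, hE']
      rw [hEe]
      refine coneMap_mem (ih t (by omega) E' ⟨?_, ?_, ?_, ?_⟩ ?_)
      · intro i j hij
        exact hE.anti (Fin.succ_le_succ_iff.mpr hij)
      · intro i; exact hE.nonneg _
      · have h := hE.dom
        rw [ip_a0', Fin.sum_univ_succ] at h
        rw [ip_a0']
        rw [if_pos (by simp)] at h
        simp only [Fin.val_succ, hE'] at h ⊢
        have e : ∀ i : Fin t, (if (i : ℕ) + 1 < n + 1 + 1 then E.2 i.succ else 0)
            = if (i : ℕ) < n + 1 then E.2 i.succ else 0 := by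
          intro i
          by_cases hi : (i : ℕ) < n + 1
          · rw [if_pos hi, if_pos (by omega)]
          · rw [if_neg hi, if_neg (by omega)]
        simp only [e] at h
        push_cast at h
        rw [← hE0] at h
        linarith
      · have h := hE.deg
        unfold degF at h ⊢
        rw [Fin.sum_univ_succ, ← hE0] at h
        simp only [hE']
        push_cast at h
        linarith
      · show E.2 _ ≤ E.1
        rw [hE0]
        exact hE.anti (Fin.zero_le _)

end Pool.Agent.Helper17.Blowup
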