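import Pool.Agent.Helper17.Blowup.Van

namespace Pool.Agent.Helper17.Blowup

open MvPolynomial

variable {K : Type*} [Field K] {σ τ : Type*}

lemma degree_eq_of_mem {f : MvPolynomial σ K} {d : ℕ} (hd : f.IsHomogeneous d) {a : σ →₀ ℕ}
    (ha : a ∈ f.support) : a.degree = d := by
  have := hd (mem_support_iff.1 ha)
  rw [Finsupp.degree_eq_weight_one]
  exact this

/-! ### coordinate points -/

section coord

variable [DecidableEq σ]

/-- multiplicity at a coordinate point bounds the exponents -/
lemma exponent_le {f : MvPolynomial σ K} {d m : ℕ} (hd : f.IsHomogeneous d) (i : σ)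
    (h : Van f (Pi.single i 1) m) {a : σ →₀ ℕ} (ha : a ∈ f.support) : a i + m ≤ d := by
  classical
  by_contra hcon
  push Not at hcon
  set w : σ → MvPolynomial σ K := fun k => if k = i then 1 else X k with hw
  have h1 : aeval w f ∈ idealOfVars σ K ^ m := by
    refine van_aeval_mem h _ w fun k => ?_
    by_cases hk : k = i
    · subst hk; simp [hw]
    · simp only [hw, if_neg hk, Pi.single_eq_of_ne hk, map_zero, sub_zero]
      exact Ideal.subset_span ⟨k, rfl⟩
  rw [mem_pow_idealOfVars_iff'] at h1
  have hdega : a.degree = d := degree_eq_of_mem hd ha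
  have hdeg : ∀ b ∈ f.support, b.degree = d := fun b hb => degree_eq_of_mem hd hb
  have herase : ∀ b : σ →₀ ℕ, (b.erase i).degree + b i = b.degree := by
    intro b
    have h2 : b.erase i + Finsupp.single i (b i) = b := Finsupp.erase_add_single i b
    conv_rhs => rw [← h2]
    rw [map_add, Finsupp.degree_single]
  have h2 := h1 (a.erase i) (by have := herase a; omega)
  have h3 : aeval w f = ∑ b ∈ f.support, monomial (b.erase i) (coeff b f) := by
    rw [aeval_def, eval₂_eq]
    refine Finset.sum_congr rfl fun b _ => ?_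
    have : ∏ k ∈ b.support, w k ^ b k = monomial (b.erase i) 1 := by
      rw [monomial_eq, C_1, one_mul, Finsupp.prod, Finsupp.support_erase]
      by_cases hi : i ∈ b.support
      · rw [← Finset.mul_prod_erase _ _ hi]
        simp only [hw, if_true, one_pow, one_mul]
        refine Finset.prod_congr rfl fun k hk => ?_
        rw [Finset.mem_erase] at hk
        rw [if_neg hk.1, Finsupp.erase_ne hk.1]
      · rw [Finset.erase_eq_of_notMem hi]
        refine Finset.prod_congr rfl fun k hk => ?_
        have hk' : k ≠ i := fun h => hi (h ▸ hk)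
        simp only [hw]
        rw [if_neg hk', Finsupp.erase_ne hk']
    rw [this]
    have : (algebraMap K (MvPolynomial σ K)) (coeff b f) = C (coeff b f) := rfl
    rw [this, C_mul_monomial, mul_one]
  rw [h3, coeff_sum, Finset.sum_eq_single a] at h2
  · rw [coeff_monomial, if_pos rfl] at h2
    exact mem_support_iff.1 ha h2
  · intro b hb hba
    rw [coeff_monomial, if_neg]
    intro heq
    apply hba
    have e1 := herase b
    have e2 := herase a
    rw [heq, hdeg b hb] at e1
    rw [hdega] at e2
    have e3 : b i = a i := by omega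
    rw [← Finsupp.erase_add_single i b, ← Finsupp.erase_add_single i a, heq, e3]
  · intro hna; exact absurd ha hna

/-- exponent bounds give multiplicity at coordinate points -/
lemma van_coord [Fintype σ] {g : MvPolynomial σ K} {m : ℕ} (i : σ)
    (h : ∀ b ∈ g.support, b i + m ≤ b.degree) : Van g (Pi.single i 1) m := by
  classical
  unfold Van
  rw [g.as_sum]
  refine Ideal.sum_mem _ fun b hb => ?_
  have hX : ∀ k, k ≠ i → (X k : MvPolynomial σ K) ∈ vanishingIdeal K ({Pi.single i 1} : Set (σ → K)) := by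
    intro k hk
    rw [mem_vanishingIdeal_iff]
    intro x hx
    rw [Set.mem_singleton_iff] at hx
    subst hx
    simp [Pi.single_eq_of_ne hk]
  rw [monomial_eq, Finsupp.prod_fintype _ _ (fun _ => pow_zero _), ← Finset.mul_prod_erase _ _ (Finset.mem_univ i)]
  refine Ideal.mul_mem_left _ _ (Ideal.mul_mem_left _ _ ?_)
  have h1 : ∏ k ∈ Finset.univ.erase i, (X k : MvPolynomial σ K) ^ b k ∈
      (vanishingIdeal K ({Pi.single i 1} : Set (σ → K))) ^ (∑ k ∈ Finset.univ.erase i, b k) := by
    rw [← Finset.prod_pow_eq_pow_sum]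
    exact Ideal.prod_mem_prod fun k hk => Ideal.pow_mem_pow (hX k (Finset.ne_of_mem_erase hk)) _
  refine Ideal.pow_le_pow_right ?_ h1
  have h2 := h b hb
  rw [Finsupp.degree_eq_sum, ← Finset.add_sum_erase _ _ (Finset.mem_univ i)] at h2
  omega

end coord

/-! ### the Cremona transform of a form -/

section crem

variable [Fintype σ]

/-- `x^r f(1/x)` -/
noncomputable def cremPoly (r : σ →₀ ℕ) (f : MvPolynomial σ K) : MvPolynomial σ K :=
  ∑ a ∈ f.support, monomial (r - a) (coeff a f)

lemma cremPoly_aeval {r : σ →₀ ℕ} {f : MvPolynomial σ K} (hr : ∀ a ∈ f.support, a ≤ r)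
    {S : Type*} [CommRing S] [Algebra K S] (u v : σ → S) (huv : ∀ i, u i * v i = 1) :
    aeval u (cremPoly r f) = (∏ i, u i ^ r i) * aeval v f := by
  classical
  rw [cremPoly, map_sum, aeval_def v, eval₂_eq', Finset.mul_sum]
  refine Finset.sum_congr rfl fun a ha => ?_
  rw [aeval_monomial, Finsupp.prod_fintype _ _ (fun _ => pow_zero _), mul_left_comm, ← Finset.prod_mul_distrib]
  congr 1
  refine Finset.prod_congr rfl fun i _ => ?_
  have h1 : a i ≤ r i := hr a ha i
  have h2 : u i ^ r i = u i ^ (r i - a i) * u i ^ a i := by rw [← pow_add]; congr 1; omega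
  rw [Finsupp.tsub_apply, h2, mul_assoc, ← mul_pow, huv, one_pow, mul_one]

omit [Fintype σ] in
lemma cremPoly_support {r : σ →₀ ℕ} {f : MvPolynomial σ K} {b : σ →₀ ℕ}
    (hb : b ∈ (cremPoly r f).support) : ∃ a ∈ f.support, b = r - a := by
  classical
  by_contra hcon
  push Not at hcon
  rw [mem_support_iff] at hb
  apply hb
  rw [cremPoly, coeff_sum]
  refine Finset.sum_eq_zero fun a ha => ?_
  rw [coeff_monomial, if_neg (fun h => hcon a ha h.symm)]

omit [Fintype σ] in
lemma cremPoly_homogeneous {r : σ →₀ ℕ} {f : MvPolynomial σ K} {d d' : ℕ} (hd : f.IsHomogeneous d)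
    (hr : ∀ a ∈ f.support, a ≤ r) (hdd : r.degree = d + d') : (cremPoly r f).IsHomogeneous d' := by
  classical
  unfold cremPoly
  refine IsHomogeneous.sum _ _ _ fun a ha => ?_
  refine isHomogeneous_monomial _ ?_
  have h1 : a.degree = d := degree_eq_of_mem hd ha
  have h2 : (r - a) + a = r := tsub_add_cancel_of_le (hr a ha)
  have h3 : (r - a).degree + a.degree = r.degree := by rw [← map_add, h2]
  omega

lemma cremPoly_ne_zero [Infinite K] {r : σ →₀ ℕ} {f : MvPolynomial σ K} (hf : f ≠ 0)
    (hr : ∀ a ∈ f.support, a ≤ r) : cremPoly r f ≠ 0 := by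
  classical
  intro h0
  have hne : f * ∏ i, X i ≠ 0 := by
    refine mul_ne_zero hf (Finset.prod_ne_zero_iff.2 fun i _ => X_ne_zero i)
  apply hne
  apply MvPolynomial.funext
  intro v
  rw [map_zero, map_mul, map_prod]
  simp only [eval_X]
  by_cases hv : ∀ i, v i ≠ 0
  · have h1 := cremPoly_aeval hr (S := K) (fun i => (v i)⁻¹) v (fun i => inv_mul_cancel₀ (hv i))
    rw [h0, map_zero] at h1
    have h2 : ∏ i, ((v i)⁻¹) ^ r i ≠ 0 := Finset.prod_ne_zero_iff.2 fun i _ => pow_ne_zero _ (inv_ne_zero (hv i))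
    have h3 : aeval v f = 0 := by
      rcases mul_eq_zero.1 h1.symm with h | h
      · exact absurd h h2
      · exact h
    have h4 : eval v f = 0 := by rw [← h3, aeval_eq_eval]
    rw [h4, zero_mul]
  · push Not at hv
    obtain ⟨i, hi⟩ := hv
    rw [Finset.prod_eq_zero (Finset.mem_univ i) hi, mul_zero]

lemma cremPoly_van [Infinite K] {r : σ →₀ ℕ} {f : MvPolynomial σ K} (hr : ∀ a ∈ f.support, a ≤ r)
    {q : σ → K} (hq : ∀ i, q i ≠ 0) {m : ℕ} (h : Van f q m) :
    Van (cremPoly r f) (fun i => (q i)⁻¹) m := by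
  refine van_of_lines fun v => ?_
  set u : σ → PowerSeries K := fun i => PowerSeries.C ((q i)⁻¹) + PowerSeries.C (v i) * PowerSeries.X with hu
  have hu0 : ∀ i, PowerSeries.constantCoeff (u i) = (q i)⁻¹ := by intro i; simp [hu]
  have hne : ∀ i, PowerSeries.constantCoeff (u i) ≠ 0 := by
    intro i; rw [hu0]; exact inv_ne_zero (hq i)
  have h1 := cremPoly_aeval hr u (fun i => (u i)⁻¹) (fun i => PowerSeries.mul_inv_cancel _ (hne i))
  rw [h1]
  refine Dvd.dvd.mul_left (van_dvd h _ _ fun i => ?_) _
  rw [PowerSeries.X_dvd_iff]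
  have : (algebraMap K (PowerSeries K)) (q i) = PowerSeries.C (q i) := rfl
  rw [this, map_sub, PowerSeries.constantCoeff_inv, hu0]
  simp

end crem

/-! ### linear pullback -/

section pull

variable [Fintype σ] [DecidableEq σ]

/-- pullback of a polynomial under a linear map -/
noncomputable def pull (L : (σ → K) →ₗ[K] (τ → K)) (f : MvPolynomial τ K) : MvPolynomial σ K :=
  aeval (fun i : τ => ∑ j, C (L (Pi.single j 1) i) * X j) f

lemma pull_eval (L : (σ → K) →ₗ[K] (τ → K)) (f : MvPolynomial τ K) (x : σ → K) :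
    eval x (pull L f) = eval (L x) f := by
  have hL : ∀ i, L x i = ∑ j, L (Pi.single j 1) i * x j := by
    intro i
    have : x = ∑ j, x j • (Pi.single j (1 : K) : σ → K) := by
      funext k; simp [Finset.sum_apply, Pi.single_apply]
    conv_lhs => rw [this]
    rw [map_sum, Finset.sum_apply]
    refine Finset.sum_congr rfl fun j _ => ?_
    rw [map_smul, Pi.smul_apply, smul_eq_mul, mul_comm]
  have h : (aeval x : MvPolynomial σ K →ₐ[K] K).comp
      (aeval (fun i : τ => ∑ j, C (L (Pi.single j 1) i) * X j)) = aeval (L x) := by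
    apply MvPolynomial.algHom_ext
    intro i
    simp only [AlgHom.comp_apply, aeval_X, map_sum, map_mul, aeval_C]
    rw [hL]; rfl
  have := congrArg (fun φ => φ f) h
  simpa [pull, aeval_eq_eval] using this

lemma pull_homogeneous (L : (σ → K) →ₗ[K] (τ → K)) {f : MvPolynomial τ K} {d : ℕ}
    (hd : f.IsHomogeneous d) : (pull L f).IsHomogeneous d := by
  have := hd.aeval (fun i : τ => ∑ j, C (L (Pi.single j 1) i) * (X j : MvPolynomial σ K)) (n := 1) ?_
  · rwa [one_mul] at this
  · intro i
    refine IsHomogeneous.sum _ _ _ fun j _ => ?_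
    have := (isHomogeneous_C σ (L (Pi.single j 1) i)).mul (isHomogeneous_X K j)
    rwa [zero_add] at this

lemma pull_ne_zero [Infinite K] (L : (σ → K) →ₗ[K] (τ → K)) (hL : Function.Surjective L)
    {f : MvPolynomial τ K} (hf : f ≠ 0) : pull L f ≠ 0 := by
  intro h0
  apply hf
  apply MvPolynomial.funext
  intro y
  obtain ⟨x, rfl⟩ := hL y
  rw [← pull_eval, h0, map_zero, map_zero]

lemma pull_van (L : (σ → K) →ₗ[K] (τ → K)) {f : MvPolynomial τ K} {p : σ → K} {m : ℕ}
    (h : Van f (L p) m) : Van (pull L f) p m := by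
  have h1 : vanishingIdeal K ({L p} : Set (τ → K)) ≤ (vanishingIdeal K ({p} : Set (σ → K))).comap
      (aeval (fun i : τ => ∑ j, C (L (Pi.single j 1) i) * X j) : MvPolynomial τ K →ₐ[K] MvPolynomial σ K) := by
    intro g hg
    rw [Ideal.mem_comap, mem_vanishingIdeal_iff]
    rw [mem_vanishingIdeal_iff] at hg
    intro x hx
    rw [Set.mem_singleton_iff] at hx
    subst hx
    have h2 := hg (L x) rfl
    have h3 := pull_eval L g x
    rw [aeval_eq_eval] at h2 ⊢
    exact h3.trans h2
  have h3 : (vanishingIdeal K ({L p} : Set (τ → K))) ^ m ≤ ((vanishingIdeal K ({p} : Set (σ → K))) ^ m).comap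
      (aeval (fun i : τ => ∑ j, C (L (Pi.single j 1) i) * X j) : MvPolynomial τ K →ₐ[K] MvPolynomial σ K) := by
    rw [← Ideal.map_le_iff_le_comap, Ideal.map_pow]
    exact Ideal.pow_right_mono (Ideal.map_le_iff_le_comap.2 h1) m
  exact h3 h

end pull

end Pool.Agent.Helper17.Blowup
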