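import Pool.Agent.Helper17.Blowup.Geom4

namespace Pool.Agent.Helper17.Blowup

open MvPolynomial Set
open scoped NNReal

variable {K : Type*} [Field K] [CharZero K] {n s : ℕ}

/-- the linear functional `(s+1) d - ∑ m_i`, positive on the effective cone -/
noncomputable def ell (s : ℕ) : RCls s →ₗ[ℝ] ℝ where
  toFun := fun v => ((s : ℝ) + 1) * v.1 - ∑ i, v.2 i
  map_add' := fun v w => by
    simp only [Prod.fst_add, Prod.snd_add, Pi.add_apply, Finset.sum_add_distrib]; ring
  map_smul' := fun a v => by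
    simp only [Prod.smul_fst, Prod.smul_snd, Pi.smul_apply, smul_eq_mul, ← Finset.mul_sum,
      RingHom.id_apply]
    ring

lemma ell_toR (D : ZCls s) : ell s (toR D) = ((D.1 + ∑ i, (D.1 - D.2 i) : ℤ) : ℝ) := by
  show ((s : ℝ) + 1) * (toR D).1 - ∑ i, (toR D).2 i = _
  simp only [toR_fst, toR_snd]
  push_cast
  rw [Finset.sum_sub_distrib]
  simp
  ring

lemma ell_nonneg {p : Fin s → Fin (n + 1) → K} {D : ZCls s} (h : IsEff p D) : 0 ≤ ell s (toR D) := by
  have : Infinite K := CharZero.infinite K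
  rw [ell_toR]
  have h1 : 0 ≤ D.1 + ∑ i, (D.1 - D.2 i) :=
    add_nonneg h.1 (Finset.sum_nonneg fun i _ => by have := h.mult_le i; omega)
  exact_mod_cast h1

lemma ell_finite (p : Fin s → Fin (n + 1) → K) (T : ℝ) :
    {D : ZCls s | IsEff p D ∧ ell s (toR D) ≤ T}.Finite := by
  classical
  have : Infinite K := CharZero.infinite K
  obtain ⟨M, hM⟩ := exists_nat_ge T
  have hfin : (Set.Icc ((-(M:ℤ), fun _ => -(M : ℤ)) : ZCls s) ((M : ℤ), fun _ => (M : ℤ))).Finite :=
    Set.finite_Icc _ _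
  refine hfin.subset ?_
  rintro D ⟨hD, hT⟩
  rw [ell_toR] at hT
  have h1 : D.1 + ∑ i, (D.1 - D.2 i) ≤ (M : ℤ) := by
    have : ((D.1 + ∑ i, (D.1 - D.2 i) : ℤ) : ℝ) ≤ (M : ℝ) := hT.trans hM
    exact_mod_cast this
  have h2 : ∀ i ∈ (Finset.univ : Finset (Fin s)), 0 ≤ D.1 - D.2 i := fun i _ => by
    have := hD.mult_le i; omega
  have h3 : 0 ≤ ∑ i, (D.1 - D.2 i) := Finset.sum_nonneg h2
  have h4 : ∀ i, D.1 - D.2 i ≤ ∑ i, (D.1 - D.2 i) := fun i =>
    Finset.single_le_sum h2 (Finset.mem_univ i)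
  have h5 := hD.1
  rw [Set.mem_Icc]
  refine ⟨⟨by show -(M : ℤ) ≤ D.1; omega, fun i => ?_⟩, ⟨by show D.1 ≤ (M : ℤ); omega, fun i => ?_⟩⟩
  · show -(M : ℤ) ≤ D.2 i
    have := h4 i; omega
  · show D.2 i ≤ (M : ℤ)
    have := h2 i (Finset.mem_univ i); omega

lemma continuous_degF (n s : ℕ) : Continuous (degF n : RCls s → ℝ) :=
  (degFL s n).continuous_of_finiteDimensional

lemma continuous_ell (s : ℕ) : Continuous (ell s) := (ell s).continuous_of_finiteDimensional

omit [CharZero K] in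
lemma coneD_split {p : Fin s → Fin (n + 1) → K} {u : RCls s} (hu : u ∈ coneD p) :
    ∃ (m : ℕ) (f : Fin m → ℝ≥0) (g : Fin m → ZCls s) (b : RCls s),
      (∀ i, IsW n (g i)) ∧ b ∈ Submodule.span ℝ≥0 {v | ∃ D : ZCls s, IsEff p D ∧ degF n (toR D) ≤ 0 ∧ v = toR D} ∧
      u = ∑ i, (f i : ℝ) • toR (g i) + b := by
  unfold coneD genD at hu
  rw [Submodule.span_union, Submodule.mem_sup] at hu
  obtain ⟨x, hx, b, hb, rfl⟩ := hu
  rw [Submodule.mem_span_set'] at hx
  obtain ⟨m, f, g, rfl⟩ := hx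
  choose G hG1 hG2 using fun i => (g i).2
  refine ⟨m, f, G, b, hG1, hb, ?_⟩
  congr 1
  refine Finset.sum_congr rfl fun i _ => ?_
  rw [NNReal.smul_def, hG2 i]

lemma neg_part {p : Fin s → Fin (n + 1) → K} {b : RCls s}
    (hb : b ∈ Submodule.span ℝ≥0 {v | ∃ D : ZCls s, IsEff p D ∧ degF n (toR D) ≤ 0 ∧ v = toR D}) :
    degF n b ≤ 0 ∧ 0 ≤ ell s b := by
  refine Submodule.span_induction ?_ ?_ ?_ ?_ hb
  · rintro v ⟨D, hD, h0, rfl⟩
    exact ⟨h0, ell_nonneg hD⟩
  · exact ⟨by simp [degF], by simp⟩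
  · rintro x y _ _ ⟨h1, h2⟩ ⟨h3, h4⟩
    exact ⟨by rw [degF_add]; linarith, by rw [map_add]; linarith⟩
  · rintro a x _ ⟨h1, h2⟩
    refine ⟨?_, ?_⟩
    · rw [NNReal.smul_def, degF_smul]
      exact mul_nonpos_of_nonneg_of_nonpos a.2 h1
    · rw [NNReal.smul_def, map_smul, smul_eq_mul]
      exact mul_nonneg a.2 h2

/-- a point of the cone with positive degree contains a definite amount of one of finitely many
Weyl divisors -/
lemma subtract_weyl (hs : n + 1 ≤ s) {p : Fin s → Fin (n + 1) → K} (hp : Gen p) {L T c ε : ℝ}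
    (hT : 0 < T) (hε : 0 < ε) (S : Finset (ZCls s))
    (hS : ∀ D, IsW n D → ell s (toR D) ≤ T → D ∈ S)
    (hc : L / T + S.card * ε ≤ c) {u : RCls s} (hu : u ∈ coneD p) (hul : ell s u < L)
    (huF : c < degF n u) : ∃ w ∈ S, IsW n w ∧ u - ε • toR w ∈ coneD p := by
  classical
  obtain ⟨m, f, g, b, hg, hb, rfl⟩ := coneD_split hu
  obtain ⟨hb1, hb2⟩ := neg_part hb
  have hF : degF n (∑ i, (f i : ℝ) • toR (g i) + b) = ∑ i, (f i : ℝ) + degF n b := by
    rw [degF_add]
    congr 1
    have := map_sum (degFL s n) (fun i => (f i : ℝ) • toR (g i)) Finset.univ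
    simp only [degFL_apply] at this
    rw [this]
    refine Finset.sum_congr rfl fun i _ => ?_
    rw [degF_smul, (hg i).degF hs, mul_one]
  have hl : ell s (∑ i, (f i : ℝ) • toR (g i) + b) = ∑ i, (f i : ℝ) * ell s (toR (g i)) + ell s b := by
    rw [map_add, map_sum]
    congr 1
    refine Finset.sum_congr rfl fun i _ => ?_
    rw [map_smul, smul_eq_mul]
  have hgE : ∀ i, 0 ≤ ell s (toR (g i)) := fun i => ell_nonneg ((hg i).eff hs hp)
  -- large part
  have hlarge : (∑ i, if ell s (toR (g i)) ≤ T then 0 else (f i : ℝ)) ≤ L / T := by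
    rw [le_div_iff₀ hT, Finset.sum_mul]
    calc ∑ i, (if ell s (toR (g i)) ≤ T then 0 else (f i : ℝ)) * T
        ≤ ∑ i, (f i : ℝ) * ell s (toR (g i)) := by
          refine Finset.sum_le_sum fun i _ => ?_
          split_ifs with h
          · rw [zero_mul]; exact mul_nonneg (f i).2 (hgE i)
          · exact mul_le_mul_of_nonneg_left (not_le.1 h).le (f i).2
      _ ≤ L := by rw [hl] at hul; linarith
  have hsmall : S.card * ε < ∑ i, if ell s (toR (g i)) ≤ T then (f i : ℝ) else 0 := by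
    have h1 : ∑ i, (f i : ℝ) = (∑ i, if ell s (toR (g i)) ≤ T then (f i : ℝ) else 0)
        + ∑ i, if ell s (toR (g i)) ≤ T then 0 else (f i : ℝ) := by
      rw [← Finset.sum_add_distrib]
      refine Finset.sum_congr rfl fun i _ => ?_
      split_ifs <;> simp
    rw [hF] at huF
    linarith
  -- group by the divisor
  set wt : ZCls s → ℝ := fun w => ∑ i, if g i = w then (f i : ℝ) else 0 with hwt
  have hgroup : (∑ i, if ell s (toR (g i)) ≤ T then (f i : ℝ) else 0) ≤ ∑ w ∈ S, wt w := by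
    simp only [hwt]
    rw [Finset.sum_comm]
    refine Finset.sum_le_sum fun i _ => ?_
    rw [Finset.sum_ite_eq]
    split_ifs with h1 h2
    · exact le_rfl
    · exact absurd (hS _ (hg i) h1) h2
    · exact (f i).2
    · exact le_rfl
  obtain ⟨w, hwS, hw⟩ : ∃ w ∈ S, ε < wt w := by
    by_contra hcon
    push Not at hcon
    have : ∑ w ∈ S, wt w ≤ ∑ _w ∈ S, ε := Finset.sum_le_sum hcon
    rw [Finset.sum_const, nsmul_eq_mul] at this
    linarith
  by_cases hWw : IsW n w
  · refine ⟨w, hwS, hWw, ?_⟩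
    have hsplit : ∑ i, (f i : ℝ) • toR (g i) + b - ε • toR w
        = (wt w - ε) • toR w + (∑ i, (if g i = w then 0 else (f i : ℝ)) • toR (g i) + b) := by
      have h1 : ∑ i, (f i : ℝ) • toR (g i) = wt w • toR w + ∑ i, (if g i = w then 0 else (f i : ℝ)) • toR (g i) := by
        simp only [hwt]
        rw [Finset.sum_smul, ← Finset.sum_add_distrib]
        refine Finset.sum_congr rfl fun i _ => ?_
        by_cases h : g i = w
        · simp [h]
        · simp [h]
      rw [h1, sub_smul]; abel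
    rw [hsplit]
    refine Submodule.add_mem _ (smul_mem_coneD (Submodule.subset_span (Or.inl ⟨w, hWw, rfl⟩)) (by linarith))
      (Submodule.add_mem _ (Submodule.sum_mem _ fun i _ => ?_) ?_)
    · refine smul_mem_coneD (Submodule.subset_span (Or.inl ⟨g i, hg i, rfl⟩)) ?_
      split_ifs
      · exact le_rfl
      · exact (f i).2
    · exact Submodule.span_mono Set.subset_union_right hb
  · exfalso
    have h0 : wt w = 0 := by
      simp only [hwt]
      refine Finset.sum_eq_zero fun i _ => ?_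
      rw [if_neg]
      intro h; exact hWw (h ▸ hg i)
    linarith


/-- the pseudo-effective cone: closure of the cone spanned by the effective classes -/
def effBar (p : Fin s → Fin (n + 1) → K) : Set (RCls s) :=
  closure (Submodule.span ℝ≥0 (toR '' {D : ZCls s | IsEff p D}) : Set (RCls s))

lemma span_eff_eq (hn : 2 ≤ n) (hs : n + 1 ≤ s) {p : Fin s → Fin (n + 1) → K} (hp : Gen p) :
    Submodule.span ℝ≥0 (toR '' {D : ZCls s | IsEff p D}) = coneD p := by
  apply le_antisymm
  · rw [Submodule.span_le]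
    rintro _ ⟨D, hD, rfl⟩
    exact eff_mem_coneD hn hs _ p hp D hD rfl
  · unfold coneD
    rw [Submodule.span_le]
    rintro v (⟨D, hD, rfl⟩ | ⟨D, hD, _, rfl⟩)
    · exact Submodule.subset_span ⟨D, hD.eff hs hp, rfl⟩
    · exact Submodule.subset_span ⟨D, hD, rfl⟩

lemma aux_div {L c : ℝ} (hL : 0 < L) (hc : 0 < c) : L / (4 * L / c) = c / 4 := by
  field_simp

lemma aux_card {N c : ℝ} (hN : 0 ≤ N) (hc : 0 < c) : N * (c / (4 * (N + 1))) ≤ c / 4 := by
  rw [mul_div_assoc', div_le_div_iff₀ (by positivity) (by norm_num)]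
  nlinarith

/-- **Theorem C.** -/
theorem extremal_ray (hn : 2 ≤ n) (hs : n + 1 ≤ s) {p : Fin s → Fin (n + 1) → K} (hp : Gen p)
    {v : RCls s} (hv : v ∈ effBar p)
    (hext : ∀ x ∈ effBar p, ∀ y ∈ effBar p, x + y = v → ∃ a : ℝ, 0 ≤ a ∧ x = a • v)
    (hF : 0 < degF n v) : ∃ D : ZCls s, IsW n D ∧ ∃ t : ℝ, 0 < t ∧ v = t • toR D := by
  classical
  unfold effBar at hv hext
  rw [span_eff_eq hn hs hp] at hv hext
  set c : ℝ := degF n v with hc
  set L : ℝ := |ell s v| + 1 with hL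
  have hL0 : 0 < L := by positivity
  set T : ℝ := 4 * L / c with hT
  have hT0 : 0 < T := by positivity
  have hfin := ell_finite p T
  set S : Finset (ZCls s) := hfin.toFinset with hS
  set ε : ℝ := c / (4 * (S.card + 1)) with hε
  have hε0 : 0 < ε := by positivity
  have hLT : L / T = c / 4 := aux_div hL0 hF
  have hSε : S.card * ε ≤ c / 4 := aux_card (Nat.cast_nonneg _) hF
  set U : Set (RCls s) := {u | ell s u < L} ∩ {u | c / 2 < degF n u} with hU
  have hUo : IsOpen U := by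
    refine IsOpen.inter ?_ ?_
    · exact isOpen_lt (continuous_ell s) continuous_const
    · exact isOpen_lt continuous_const (continuous_degF n s)
  have hvU : v ∈ U := by
    refine ⟨?_, ?_⟩
    · show ell s v < L
      have := le_abs_self (ell s v); rw [hL]; linarith
    · show c / 2 < degF n v
      rw [← hc]; linarith
  have hv2 : v ∈ closure (U ∩ (coneD p : Set (RCls s))) := hUo.inter_closure ⟨hvU, hv⟩
  set S' : Finset (ZCls s) := S.filter (fun w => IsW n w) with hS'
  have hsub : U ∩ (coneD p : Set (RCls s)) ⊆ ⋃ w ∈ (S' : Set (ZCls s)), {u | u - ε • toR w ∈ coneD p} := by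
    rintro u ⟨⟨hu1, hu2⟩, hu3⟩
    obtain ⟨w, hw, hwW, hw2⟩ := subtract_weyl (L := L) (T := T) (c := c / 2) (ε := ε) hs hp hT0 hε0 S
      (fun D hD hDT => by
        rw [hS, Set.Finite.mem_toFinset]; exact ⟨hD.eff hs hp, hDT⟩)
      (by rw [hLT]; linarith) hu3 hu1 hu2
    rw [Set.mem_iUnion₂]
    exact ⟨w, by rw [Finset.mem_coe, hS', Finset.mem_filter]; exact ⟨hw, hwW⟩, hw2⟩
  have hv3 := closure_mono hsub hv2
  rw [(S'.finite_toSet).closure_biUnion] at hv3
  rw [Set.mem_iUnion₂] at hv3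
  obtain ⟨w, hw, hv4⟩ := hv3
  have hwW : IsW n w := by
    rw [Finset.mem_coe, hS', Finset.mem_filter] at hw; exact hw.2
  have hcont : Continuous (fun u : RCls s => u - ε • toR w) := continuous_id.sub continuous_const
  have hv5 : v - ε • toR w ∈ closure (coneD p : Set (RCls s)) :=
    map_mem_closure (f := fun u : RCls s => u - ε • toR w) hcont hv4 (fun u hu => hu)
  have hx : ε • toR w ∈ closure (coneD p : Set (RCls s)) :=
    subset_closure (smul_mem_coneD (Submodule.subset_span (Or.inl ⟨w, hwW, rfl⟩)) hε0.le)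
  obtain ⟨a, ha, hae⟩ := hext _ hx _ hv5 (add_sub_cancel _ _)
  have h1 : ε = a * c := by
    have := congrArg (degF n) hae
    rwa [degF_smul, degF_smul, hwW.degF hs, mul_one, ← hc] at this
  have ha0 : 0 < a := by
    rcases eq_or_lt_of_le ha with h | h
    · rw [← h, zero_mul] at h1; linarith
    · exact h
  refine ⟨w, hwW, ε / a, div_pos hε0 ha0, ?_⟩
  have h2 : v = a⁻¹ • (ε • toR w) := by
    rw [hae, smul_smul, inv_mul_cancel₀ ha0.ne', one_smul]
  rw [h2, smul_smul]
  congr 1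
  rw [div_eq_mul_inv, mul_comm]

end Pool.Agent.Helper17.Blowup
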