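import Mathlib

namespace Pool.Agent.Helper17.Blowup

open MvPolynomial Set

variable {K : Type*} [Field K] [CharZero K]

/-- elements of the field generated by a set are algebraic over the ring generated by the set -/
lemma isAlgebraic_of_mem_adjoin {S : Set K} {a : K} (h : a ∈ IntermediateField.adjoin ℚ S) :
    IsAlgebraic (Algebra.adjoin ℚ S) a := by
  rw [IntermediateField.mem_adjoin_iff_div] at h
  obtain ⟨r, hr, t, ht, rfl⟩ := h
  have h1 : IsAlgebraic (Algebra.adjoin ℚ S) r :=
    isAlgebraic_algebraMap (⟨r, hr⟩ : Algebra.adjoin ℚ S)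
  have h2 : IsAlgebraic (Algebra.adjoin ℚ S) t :=
    isAlgebraic_algebraMap (⟨t, ht⟩ : Algebra.adjoin ℚ S)
  rw [div_eq_mul_inv]
  exact h1.mul h2.inv

lemma algInd_of_mem {ι : Type*} [Finite ι] {x x' : ι → K} (hx : AlgebraicIndependent ℚ x)
    (h : ∀ i, x i ∈ IntermediateField.adjoin ℚ (Set.range x')) : AlgebraicIndependent ℚ x' := by
  classical
  set M := AlgebraicIndependent.matroid ℚ K with hM
  have hxI : M.Indep (range x) := hx.to_subtype_range
  have hsub : range x ⊆ M.closure (range x') := by
    rintro _ ⟨i, rfl⟩
    rw [hM, AlgebraicIndependent.matroid_closure_eq]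
    exact isAlgebraic_of_mem_adjoin (h i)
  have h1 : (range x).encard ≤ M.eRk (range x') := by
    rw [← M.eRk_closure_eq, ← hxI.eRk_eq_encard]
    exact M.eRk_mono hsub
  have h2 : (range x).encard = ENat.card ι := by
    rw [← image_univ, hx.injective.encard_image, encard_univ]
  have hfin : (range x').Finite := finite_range x'
  have h3 : (range x').encard ≤ ENat.card ι := by
    rw [← image_univ, ← encard_univ]
    exact encard_image_le _ _
  have h4 : M.eRk (range x') ≤ (range x').encard := M.eRk_le_encard _
  have h5 : (range x').encard = ENat.card ι := le_antisymm h3 (by rw [← h2]; exact h1.trans h4)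
  have h6 : M.eRk (range x') = (range x').encard := le_antisymm h4 (by rw [h5, ← h2]; exact h1)
  have hind : M.Indep (range x') := (Matroid.indep_iff_eRk_eq_encard_of_finite hfin).2 h6
  have hinj : Function.Injective x' := by
    rw [← injOn_univ]
    refine (Set.finite_univ).injOn_of_encard_image_eq ?_
    rw [image_univ, h5, encard_univ]
  exact AlgebraicIndependent.of_subtype_range hinj hind

end Pool.Agent.Helper17.Blowup
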