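import Pool.Agent.Helper17.Blowup.Crem
import Pool.Agent.Helper17.Blowup.Comb3

namespace Pool.Agent.Helper17.Blowup

open MvPolynomial

variable {K : Type*} [Field K] {n s : ℕ}

/-- The integral class `D = d H - ∑ m_i E_i` is effective on the blow-up of `ℙ^n` at the points
`p_i`: there is a nonzero form of degree `d` vanishing to order at least `m_i` at `p_i`. -/
def IsEff (p : Fin s → Fin (n + 1) → K) (D : ZCls s) : Prop :=
  0 ≤ D.1 ∧ ∃ f : MvPolynomial (Fin (n + 1)) K, f ≠ 0 ∧ f.IsHomogeneous D.1.toNat ∧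
    ∀ i, Van f (p i) (D.2 i).toNat

lemma IsEff.permC {p : Fin s → Fin (n + 1) → K} {D : ZCls s} (h : IsEff p D)
    (σ : Equiv.Perm (Fin s)) : IsEff (fun i => p (σ i)) (permC σ D) := by
  obtain ⟨h0, f, hf, hd, hv⟩ := h
  exact ⟨h0, f, hf, hd, fun i => hv (σ i)⟩

lemma IsEff.mult_le [Infinite K] {p : Fin s → Fin (n + 1) → K} {D : ZCls s} (h : IsEff p D)
    (i : Fin s) : D.2 i ≤ D.1 := by
  obtain ⟨h0, f, hf, hd, hv⟩ := h
  have := van_le_degree hf hd (hv i)
  omega

lemma IsEff.mono {p : Fin s → Fin (n + 1) → K} {D D' : ZCls s} (h : IsEff p D) (h1 : D'.1 = D.1)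
    (h2 : ∀ i, D'.2 i ≤ max (D.2 i) 0) : IsEff p D' := by
  obtain ⟨h0, f, hf, hd, hv⟩ := h
  refine ⟨by rw [h1]; exact h0, f, hf, by rw [h1]; exact hd, fun i => (hv i).mono ?_⟩
  have := h2 i
  omega

lemma isEff_exc (p : Fin s → Fin (n + 1) → K) (i : Fin s) :
    IsEff p ((0, fun j => if j = i then -1 else 0) : ZCls s) := by
  refine ⟨le_rfl, 1, one_ne_zero, ?_, fun j => ?_⟩
  · simpa using isHomogeneous_one (Fin (n + 1)) K
  · have : ((if j = i then (-1 : ℤ) else 0)).toNat = 0 := by split_ifs <;> rfl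
    simp only [this]
    exact van_zero _ _

/-- the configuration after the standard Cremona transformation -/
noncomputable def cremPt (B : (Fin (n + 1) → K) ≃ₗ[K] (Fin (n + 1) → K)) (p : Fin s → Fin (n + 1) → K) :
    Fin s → Fin (n + 1) → K :=
  fun j => if (j : ℕ) < n + 1 then p j else B (fun i => (B.symm (p j) i)⁻¹)

/-- the Cremona transformation is defined at the configuration -/
structure CremGood (B : (Fin (n + 1) → K) ≃ₗ[K] (Fin (n + 1) → K)) (p : Fin s → Fin (n + 1) → K) :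
    Prop where
  basis : ∀ (j : Fin s) (h : (j : ℕ) < n + 1), B (Pi.single ⟨j, h⟩ 1) = p j
  ne : ∀ (j : Fin s), n + 1 ≤ (j : ℕ) → ∀ i, B.symm (p j) i ≠ 0

lemma CremGood.crem {B : (Fin (n + 1) → K) ≃ₗ[K] (Fin (n + 1) → K)} {p : Fin s → Fin (n + 1) → K}
    (h : CremGood B p) : CremGood B (cremPt B p) := by
  refine ⟨fun j hj => ?_, fun j hj i => ?_⟩
  · rw [cremPt, if_pos hj]; exact h.basis j hj
  · rw [cremPt, if_neg (by omega), LinearEquiv.symm_apply_apply]
    exact inv_ne_zero (h.ne j hj i)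

lemma cremPt_cremPt (B : (Fin (n + 1) → K) ≃ₗ[K] (Fin (n + 1) → K)) (p : Fin s → Fin (n + 1) → K) :
    cremPt B (cremPt B p) = p := by
  funext j
  by_cases hj : (j : ℕ) < n + 1
  · rw [cremPt, if_pos hj, cremPt, if_pos hj]
  · rw [cremPt, if_neg hj, cremPt, if_neg hj]
    simp

lemma sum_emb {M : Type*} [AddCommMonoid M] (hs : n + 1 ≤ s) (f : Fin s → M) :
    (∑ i : Fin s, if (i : ℕ) < n + 1 then f i else 0) = ∑ k : Fin (n + 1), f (Fin.castLE hs k) := by
  classical
  rw [← Finset.sum_filter]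
  refine (Finset.sum_bij (fun k _ => Fin.castLE hs k) ?_ ?_ ?_ ?_).symm
  · intro k _; simp
    exact Fin.is_le k
  · intro a _ b _ h; exact Fin.castLE_injective hs h
  · intro b hb
    simp only [Finset.mem_filter, Finset.mem_univ, true_and] at hb
    exact ⟨⟨b, hb⟩, Finset.mem_univ _, by ext; simp⟩
  · intro k _; rfl

/-- **Cremona invariance of effectivity.** -/
lemma IsEff.crem [Infinite K] {B : (Fin (n + 1) → K) ≃ₗ[K] (Fin (n + 1) → K)}
    {p : Fin s → Fin (n + 1) → K} (hB : CremGood B p) (hs : n + 1 ≤ s) {D : ZCls s}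
    (h : IsEff p D) : IsEff (cremPt B p) (crem0 n D) := by
  classical
  have hle := h.mult_le
  obtain ⟨h0, f, hf, hd, hv⟩ := h
  set d : ℕ := D.1.toNat with hdd
  have hd1 : (d : ℤ) = D.1 := Int.toNat_of_nonneg h0
  -- pull back to coordinates in which the first points are coordinate points
  set F : MvPolynomial (Fin (n + 1)) K := pull B.toLinearMap f with hF
  have hF0 : F ≠ 0 := pull_ne_zero _ B.surjective hf
  have hFd : F.IsHomogeneous d := pull_homogeneous _ hd
  set r : Fin (n + 1) →₀ ℕ := Finsupp.equivFunOnFinite.symm (fun k => (D.1 - D.2 (Fin.castLE hs k)).toNat)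
    with hr
  have hrk : ∀ k, (r k : ℤ) = D.1 - D.2 (Fin.castLE hs k) := by
    intro k
    have := hle (Fin.castLE hs k)
    simp only [hr, Finsupp.equivFunOnFinite_symm_apply_apply]
    rw [Int.toNat_of_nonneg (by omega)]
  have hFv : ∀ k : Fin (n + 1), Van F (Pi.single k 1) (D.2 (Fin.castLE hs k)).toNat := by
    intro k
    refine pull_van _ ?_
    have hk := hB.basis (Fin.castLE hs k) (by simpa using Fin.is_le k)
    have : (⟨((Fin.castLE hs k : Fin s) : ℕ), by simpa using Fin.is_le k⟩ : Fin (n + 1)) = k := by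
      ext; simp
    rw [this] at hk
    show Van f (B (Pi.single k 1)) _
    rw [hk]; exact hv _
  have hra : ∀ a ∈ F.support, a ≤ r := by
    intro a ha k
    have h1 := exponent_le hFd k (hFv k) ha
    have h2 := hrk k
    have h3 := hle (Fin.castLE hs k)
    omega
  -- the degree
  have hsumr : ((r.degree : ℕ) : ℤ) = ((n : ℤ) + 1) * D.1 - ∑ k : Fin (n + 1), D.2 (Fin.castLE hs k) := by
    rw [Finsupp.degree_eq_sum]
    push_cast
    simp only [hrk, Finset.sum_sub_distrib]
    simp
  set κ : ℤ := ((n : ℤ) - 1) * D.1 - ∑ i : Fin s, if (i : ℕ) < n + 1 then D.2 i else 0 with hκ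
  have hκ' : κ = ((n : ℤ) - 1) * D.1 - ∑ k : Fin (n + 1), D.2 (Fin.castLE hs k) := by
    rw [hκ, sum_emb hs D.2]
  have hdr : d ≤ r.degree := by
    obtain ⟨a, ha⟩ : ∃ a, a ∈ F.support := by
      by_contra hcon
      push Not at hcon
      exact hF0 (support_eq_empty.1 (Finset.eq_empty_of_forall_notMem hcon))
    have h1 := degree_eq_of_mem hFd ha
    have h2 : r - a + a = r := tsub_add_cancel_of_le (hra a ha)
    have h3 : (r - a).degree + a.degree = r.degree := by rw [← map_add, h2]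
    omega
  set d' : ℕ := r.degree - d with hd'
  have hd'1 : (d' : ℤ) = D.1 + κ := by
    have : (d' : ℤ) = (r.degree : ℤ) - d := by omega
    rw [this, hsumr, hd1, hκ']; ring
  have hg0 : cremPoly r F ≠ 0 := cremPoly_ne_zero hF0 hra
  have hgd : (cremPoly r F).IsHomogeneous d' := cremPoly_homogeneous hFd hra (by omega)
  have hfst : (crem0 n D).1 = D.1 + κ := rfl
  refine ⟨by rw [hfst, ← hd'1]; positivity, pull B.symm.toLinearMap (cremPoly r F),
    pull_ne_zero _ B.symm.surjective hg0, ?_, fun j => ?_⟩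
  · rw [hfst, ← hd'1, Int.toNat_natCast]
    exact pull_homogeneous _ hgd
  · refine pull_van _ ?_
    show Van _ (B.symm (cremPt B p j)) _
    by_cases hj : (j : ℕ) < n + 1
    · rw [cremPt, if_pos hj, ← hB.basis j hj, LinearEquiv.symm_apply_apply]
      refine van_coord _ fun b hb => ?_
      obtain ⟨a, ha, rfl⟩ := cremPoly_support hb
      have hbd := degree_eq_of_mem hgd hb
      rw [hbd]
      have h1 : (r - a) ⟨j, hj⟩ ≤ r ⟨j, hj⟩ := by rw [Finsupp.tsub_apply]; omega
      have h2 : (r - a) ⟨j, hj⟩ ≤ d' := by rw [← hbd]; exact Finsupp.le_degree _ _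
      have h3 := hrk ⟨j, hj⟩
      have h4 : Fin.castLE hs ⟨j, hj⟩ = j := by ext; simp
      rw [h4] at h3
      have h5 : (crem0 n D).2 j = D.2 j + κ := by simp only [crem0]; rw [if_pos hj]
      rw [h5]
      omega
    · rw [cremPt, if_neg hj, LinearEquiv.symm_apply_apply]
      refine cremPoly_van hra (hB.ne j (by omega)) ?_
      refine pull_van _ ?_
      show Van f (B (B.symm (p j))) _
      rw [LinearEquiv.apply_symm_apply]
      have h5 : (crem0 n D).2 j = D.2 j := by simp only [crem0]; rw [if_neg hj]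
      rw [h5]; exact hv j

end Pool.Agent.Helper17.Blowup
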