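import Pool.Agent.Helper17.Blowup.Geom1

namespace Pool.Agent.Helper17.Blowup

open MvPolynomial Module

variable {K : Type*} [Field K]

/-- a linear system of dimension larger than the number of conditions is nonempty -/
lemma exists_form (N d : ℕ) (ι : Type) [Fintype ι] (h : Fintype.card ι < (N + d - 1).choose d)
    (φ : ι → (MvPolynomial (Fin N) K →ₗ[K] K)) :
    ∃ f : MvPolynomial (Fin N) K, f ≠ 0 ∧ f.IsHomogeneous d ∧ ∀ j, φ j f = 0 := by
  classical
  set T : Finset (Fin N →₀ ℕ) := (Finset.univ : Finset (Fin N)).finsuppAntidiag d with hT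
  have hcard : T.card = (N + d - 1).choose d := by
    rw [hT, Finset.card_finsuppAntidiag_nat_eq_choose]; simp
  set Φ : (T → K) →ₗ[K] MvPolynomial (Fin N) K :=
    { toFun := fun c => ∑ t : T, monomial (t : Fin N →₀ ℕ) (c t)
      map_add' := fun c c' => by simp [Finset.sum_add_distrib]
      map_smul' := fun a c => by simp [Finset.smul_sum, smul_monomial] } with hΦ
  set L : (T → K) →ₗ[K] (ι → K) := LinearMap.pi (fun j => (φ j).comp Φ) with hL
  have hker : LinearMap.ker L ≠ ⊥ := by
    apply LinearMap.ker_ne_bot_of_finrank_lt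
    rw [finrank_fintype_fun_eq_card, finrank_fintype_fun_eq_card, Fintype.card_coe, hcard]
    exact h
  obtain ⟨c, hc, hc0⟩ := (Submodule.ne_bot_iff _).1 hker
  have hcoeff : ∀ t : T, coeff (t : Fin N →₀ ℕ) (Φ c) = c t := by
    intro t
    show coeff (t : Fin N →₀ ℕ) (∑ t : T, monomial (t : Fin N →₀ ℕ) (c t)) = c t
    rw [coeff_sum, Finset.sum_eq_single t]
    · rw [coeff_monomial, if_pos rfl]
    · intro b _ hb
      rw [coeff_monomial, if_neg (fun h => hb (Subtype.ext h))]
    · simp
  refine ⟨Φ c, ?_, ?_, ?_⟩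
  · intro h0
    apply hc0
    funext t
    rw [← hcoeff t, h0]; simp
  · show (∑ t : T, monomial (t : Fin N →₀ ℕ) (c t)).IsHomogeneous d
    refine IsHomogeneous.sum _ _ _ fun t _ => isHomogeneous_monomial _ ?_
    rw [Finsupp.degree_eq_sum]; exact (Finset.mem_finsuppAntidiag.1 t.2).1
  · intro j
    have : L c = 0 := hc
    exact congrFun this j

/-- chain rule -/
lemma derivative_aeval {σ : Type*} [Fintype σ] [DecidableEq σ] (u : σ → Polynomial K)
    (f : MvPolynomial σ K) : Polynomial.derivative (aeval u f)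
      = ∑ k, aeval u (pderiv k f) * Polynomial.derivative (u k) := by
  induction f using MvPolynomial.induction_on with
  | C a =>
      simp [Polynomial.algebraMap_eq]
  | add p q hp hq =>
      simp only [map_add, hp, hq, add_mul, Finset.sum_add_distrib]
  | mul_X p i hp =>
      have e : ∀ k, aeval u (pderiv k (p * X i)) * Polynomial.derivative (u k)
          = (if k = i then aeval u p * Polynomial.derivative (u i) else 0)
            + aeval u (pderiv k p) * Polynomial.derivative (u k) * u i := by
        intro k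
        rw [Derivation.leibniz, smul_eq_mul, smul_eq_mul, map_add, map_mul, map_mul, aeval_X, pderiv_X]
        by_cases hk : k = i
        · subst hk; rw [if_pos rfl, Pi.single_eq_same, map_one]; ring
        · rw [if_neg hk, Pi.single_eq_of_ne (Ne.symm hk), map_zero]; ring
      rw [Finset.sum_congr rfl fun k _ => e k, Finset.sum_add_distrib, Finset.sum_ite_eq' Finset.univ i,
        if_pos (Finset.mem_univ i), ← Finset.sum_mul, ← hp, map_mul, aeval_X, Polynomial.derivative_mul]
      ring

/-- transfer of lines from polynomials to power series -/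
lemma aeval_line_coe {σ : Type*} (p v : σ → K) (f : MvPolynomial σ K) :
    ((aeval (fun i => Polynomial.C (p i) + Polynomial.C (v i) * Polynomial.X) f : Polynomial K) : PowerSeries K)
      = aeval (fun i => PowerSeries.C (p i) + PowerSeries.C (v i) * PowerSeries.X) f := by
  have h : (Polynomial.coeToPowerSeries.algHom (R := K) K).comp
      (aeval (fun i => Polynomial.C (p i) + Polynomial.C (v i) * Polynomial.X) : MvPolynomial σ K →ₐ[K] _)
      = aeval (fun i => PowerSeries.C (p i) + PowerSeries.C (v i) * PowerSeries.X) := by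
    apply MvPolynomial.algHom_ext
    intro i
    simp only [AlgHom.comp_apply, aeval_X]
    rw [Polynomial.coeToPowerSeries.algHom_apply]
    simp
  have := congrArg (fun φ => φ f) h
  simp only [AlgHom.comp_apply] at this
  rw [Polynomial.coeToPowerSeries.algHom_apply] at this
  simpa using this

lemma van_one_of_eval {σ : Type*} {f : MvPolynomial σ K} {p : σ → K} (h : eval p f = 0) : Van f p 1 := by
  unfold Van
  rw [pow_one, mem_vanishingIdeal_iff]
  intro x hx
  rw [Set.mem_singleton_iff] at hx
  subst hx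
  rw [aeval_eq_eval]; exact h

lemma van_two [Infinite K] {σ : Type*} [Fintype σ] [DecidableEq σ] {f : MvPolynomial σ K} {p : σ → K}
    (h0 : eval p f = 0) (h1 : ∀ k, eval p (pderiv k f) = 0) : Van f p 2 := by
  refine van_of_lines fun v => ?_
  rw [← aeval_line_coe]
  set u : σ → Polynomial K := fun i => Polynomial.C (p i) + Polynomial.C (v i) * Polynomial.X with hu
  have hev : ∀ g : MvPolynomial σ K, Polynomial.eval 0 (aeval u g) = eval p g := by
    intro g
    have : ((Polynomial.aeval (0 : K)).restrictScalars K |>.comp (aeval u : MvPolynomial σ K →ₐ[K] _)) = (aeval p : MvPolynomial σ K →ₐ[K] K) := by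
      apply MvPolynomial.algHom_ext
      intro i
      simp [hu]
    have := congrArg (fun φ => φ g) this
    simpa [Polynomial.aeval_def, Polynomial.eval₂_eq_eval_map, aeval_eq_eval] using this
  rw [PowerSeries.X_pow_dvd_iff]
  intro m hm
  rw [Polynomial.coeff_coe]
  interval_cases m
  · rw [Polynomial.coeff_zero_eq_eval_zero, hev, h0]
  · have h2 : (aeval u f : Polynomial K).coeff 1 = (Polynomial.derivative (aeval u f)).coeff 0 := by
      rw [Polynomial.coeff_derivative]; simp
    rw [h2, Polynomial.coeff_zero_eq_eval_zero, derivative_aeval, Polynomial.eval_finsetSum]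
    refine Finset.sum_eq_zero fun k _ => ?_
    rw [Polynomial.eval_mul, hev, h1, zero_mul]

/-- projection killing a vector -/
lemma exists_proj (n : ℕ) (x : Fin (n + 2) → K) :
    ∃ L : (Fin (n + 2) → K) →ₗ[K] (Fin (n + 1) → K), Function.Surjective L ∧ L x = 0 := by
  classical
  obtain ⟨y, hy, hxy⟩ : ∃ y : Fin (n + 2) → K, y ≠ 0 ∧ x ∈ Submodule.span K {y} := by
    by_cases hx : x = 0
    · exact ⟨Pi.single 0 1, by simp, by rw [hx]; exact Submodule.zero_mem _⟩
    · exact ⟨x, hx, Submodule.mem_span_singleton_self x⟩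
  set W := Submodule.span K {y} with hW
  have h1 : finrank K W = 1 := finrank_span_singleton hy
  have h2 : finrank K ((Fin (n + 2) → K) ⧸ W) = n + 1 := by
    have := Submodule.finrank_quotient_add_finrank W
    rw [h1, finrank_fin_fun] at this
    omega
  have h3 : finrank K ((Fin (n + 2) → K) ⧸ W) = finrank K (Fin (n + 1) → K) := by
    rw [h2, finrank_fin_fun]
  refine ⟨(LinearEquiv.ofFinrankEq _ _ h3).toLinearMap.comp W.mkQ, ?_, ?_⟩
  · exact (LinearEquiv.surjective _).comp (Submodule.mkQ_surjective W)
  · simp only [LinearMap.comp_apply, Submodule.mkQ_apply]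
    rw [(Submodule.Quotient.mk_eq_zero W).2 hxy]; simp

lemma isEff_conez [Infinite K] {n s : ℕ} {g : ZCls s}
    (h : ∀ p : Fin s → Fin (n + 1) → K, IsEff p g) (p : Fin (s + 1) → Fin (n + 2) → K) :
    IsEff (n := n + 1) p (conez g) := by
  obtain ⟨L, hL, hL0⟩ := exists_proj n (p 0)
  obtain ⟨h0, f, hf, hd, hv⟩ := h (fun i => L (p i.succ))
  refine ⟨h0, pull L f, pull_ne_zero L hL hf, pull_homogeneous L hd, fun i => ?_⟩
  refine pull_van L ?_
  refine Fin.cases ?_ (fun j => ?_) i
  · rw [hL0]; exact van_origin hd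
  · simpa [conez] using hv j

/-! ### the base classes are effective for every configuration -/

def G1 (n s : ℕ) : ZCls s := (3, fun i => if (i : ℕ) + 2 < n then 3 else if (i : ℕ) < n + 7 then 1 else 0)
def G2 (n s : ℕ) : ZCls s := (2, fun i => if (i : ℕ) + 3 < n then 2 else if (i : ℕ) < n + 5 then 1 else 0)
def G3 (n s : ℕ) : ZCls s := (3, fun i => if (i : ℕ) + 5 < n then 3 else if (i : ℕ) < n + 4 then 2 else 0)

lemma G1_succ (n s : ℕ) (hn : 2 ≤ n) : G1 (n + 1) (s + 1) = conez (G1 n s) := by
  refine Prod.ext rfl ?_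
  funext j
  refine Fin.cases ?_ (fun k => ?_) j
  · simp only [G1, conez, Fin.cons_zero]; rw [if_pos (by simp; omega)]
  · simp only [G1, conez, Fin.cons_succ, Fin.val_succ]
    by_cases h1 : (k : ℕ) + 2 < n
    · rw [if_pos h1, if_pos (by omega)]
    · rw [if_neg h1, if_neg (show ¬ (k : ℕ) + 1 + 2 < n + 1 by omega)]
      by_cases h2 : (k : ℕ) < n + 7
      · rw [if_pos h2, if_pos (by omega)]
      · rw [if_neg h2, if_neg (by omega)]

lemma G2_succ (n s : ℕ) (hn : 3 ≤ n) : G2 (n + 1) (s + 1) = conez (G2 n s) := by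
  refine Prod.ext rfl ?_
  funext j
  refine Fin.cases ?_ (fun k => ?_) j
  · simp only [G2, conez, Fin.cons_zero]; rw [if_pos (by simp; omega)]
  · simp only [G2, conez, Fin.cons_succ, Fin.val_succ]
    by_cases h1 : (k : ℕ) + 3 < n
    · rw [if_pos h1, if_pos (by omega)]
    · rw [if_neg h1, if_neg (show ¬ (k : ℕ) + 1 + 3 < n + 1 by omega)]
      by_cases h2 : (k : ℕ) < n + 5
      · rw [if_pos h2, if_pos (by omega)]
      · rw [if_neg h2, if_neg (by omega)]

lemma G3_succ (n s : ℕ) (hn : 5 ≤ n) : G3 (n + 1) (s + 1) = conez (G3 n s) := by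
  refine Prod.ext rfl ?_
  funext j
  refine Fin.cases ?_ (fun k => ?_) j
  · simp only [G3, conez, Fin.cons_zero]; rw [if_pos (by simp; omega)]
  · simp only [G3, conez, Fin.cons_succ, Fin.val_succ]
    by_cases h1 : (k : ℕ) + 5 < n
    · rw [if_pos h1, if_pos (by omega)]
    · rw [if_neg h1, if_neg (show ¬ (k : ℕ) + 1 + 5 < n + 1 by omega)]
      by_cases h2 : (k : ℕ) < n + 4
      · rw [if_pos h2, if_pos (by omega)]
      · rw [if_neg h2, if_neg (by omega)]

lemma G1_eff [Infinite K] (n : ℕ) (hn : 2 ≤ n) : ∀ s, n + 7 ≤ s → ∀ p : Fin s → Fin (n + 1) → K,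
    IsEff p (G1 n s) := by
  induction n, hn using Nat.le_induction with
  | base =>
      intro s hs p
      obtain ⟨f, hf, hd, hv⟩ := exists_form (K := K) 3 3 (Fin 9) (by simp; decide)
        (fun j => (aeval (p (Fin.castLE hs j)) : MvPolynomial (Fin 3) K →ₐ[K] K).toLinearMap)
      refine ⟨by simp [G1], f, hf, by simpa [G1] using hd, fun i => ?_⟩
      by_cases hi : (i : ℕ) < 9
      · have h1 : ((G1 2 s).2 i).toNat = 1 := by
          simp only [G1]; rw [if_neg (show ¬ (i : ℕ) + 2 < 2 by omega), if_pos (by omega)]; rfl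
        rw [h1]
        have h2 := hv ⟨i, hi⟩
        have h3 : Fin.castLE hs ⟨(i : ℕ), hi⟩ = i := by ext; simp
        rw [h3] at h2
        refine van_one_of_eval ?_
        rw [← aeval_eq_eval]; exact h2
      · have h1 : ((G1 2 s).2 i).toNat = 0 := by
          simp only [G1]; rw [if_neg (show ¬ (i : ℕ) + 2 < 2 by omega), if_neg (by omega)]; rfl
        rw [h1]; exact van_zero _ _
  | succ n hn ih =>
      intro s hs p
      obtain ⟨t, rfl⟩ : ∃ t, s = t + 1 := ⟨s - 1, by omega⟩
      rw [G1_succ n t hn]
      exact isEff_conez (ih t (by omega)) p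

lemma G2_eff [Infinite K] (n : ℕ) (hn : 3 ≤ n) : ∀ s, n + 5 ≤ s → ∀ p : Fin s → Fin (n + 1) → K,
    IsEff p (G2 n s) := by
  induction n, hn using Nat.le_induction with
  | base =>
      intro s hs p
      obtain ⟨f, hf, hd, hv⟩ := exists_form (K := K) 4 2 (Fin 8) (by simp; decide)
        (fun j => (aeval (p (Fin.castLE hs j)) : MvPolynomial (Fin 4) K →ₐ[K] K).toLinearMap)
      refine ⟨by simp [G2], f, hf, by simpa [G2] using hd, fun i => ?_⟩
      by_cases hi : (i : ℕ) < 8
      · have h1 : ((G2 3 s).2 i).toNat = 1 := by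
          simp only [G2]; rw [if_neg (show ¬ (i : ℕ) + 3 < 3 by omega), if_pos (by omega)]; rfl
        rw [h1]
        have h2 := hv ⟨i, hi⟩
        have h3 : Fin.castLE hs ⟨(i : ℕ), hi⟩ = i := by ext; simp
        rw [h3] at h2
        refine van_one_of_eval ?_
        rw [← aeval_eq_eval]; exact h2
      · have h1 : ((G2 3 s).2 i).toNat = 0 := by
          simp only [G2]; rw [if_neg (show ¬ (i : ℕ) + 3 < 3 by omega), if_neg (by omega)]; rfl
        rw [h1]; exact van_zero _ _
  | succ n hn ih =>
      intro s hs p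
      obtain ⟨t, rfl⟩ : ∃ t, s = t + 1 := ⟨s - 1, by omega⟩
      rw [G2_succ n t hn]
      exact isEff_conez (ih t (by omega)) p

lemma G3_eff [CharZero K] (n : ℕ) (hn : 5 ≤ n) : ∀ s, n + 4 ≤ s → ∀ p : Fin s → Fin (n + 1) → K,
    IsEff p (G3 n s) := by
  classical
  have : Infinite K := CharZero.infinite K
  induction n, hn using Nat.le_induction with
  | base =>
      intro s hs p
      obtain ⟨f, hf, hd, hv⟩ := exists_form (K := K) 6 3 (Fin 9 × Fin 6) (by simp; decide)
        (fun j => (aeval (p (Fin.castLE hs j.1)) : MvPolynomial (Fin 6) K →ₐ[K] K).toLinearMap.comp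
          (pderiv j.2).toLinearMap)
      refine ⟨by simp [G3], f, hf, by simpa [G3] using hd, fun i => ?_⟩
      by_cases hi : (i : ℕ) < 9
      · have h1 : ((G3 5 s).2 i).toNat = 2 := by
          simp only [G3]; rw [if_neg (show ¬ (i : ℕ) + 5 < 5 by omega), if_pos (by omega)]; rfl
        rw [h1]
        have h2 : ∀ k, eval (p i) (pderiv k f) = 0 := by
          intro k
          have h2 := hv (⟨i, hi⟩, k)
          have h3 : Fin.castLE hs ⟨(i : ℕ), hi⟩ = i := by ext; simp
          simp only [h3] at h2
          rw [← aeval_eq_eval]; exact h2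
        refine van_two ?_ h2
        have he := hd.sum_X_mul_pderiv
        have he2 := congrArg (eval (p i)) he
        rw [map_sum] at he2
        simp only [map_mul, h2, mul_zero, Finset.sum_const_zero] at he2
        rw [map_nsmul] at he2
        simpa using he2.symm
      · have h1 : ((G3 5 s).2 i).toNat = 0 := by
          simp only [G3]; rw [if_neg (show ¬ (i : ℕ) + 5 < 5 by omega), if_neg (by omega)]; rfl
        rw [h1]; exact van_zero _ _
  | succ n hn ih =>
      intro s hs p
      obtain ⟨t, rfl⟩ : ∃ t, s = t + 1 := ⟨s - 1, by omega⟩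
      rw [G3_succ n t hn]
      exact isEff_conez (ih t (by omega)) p

/-- every base class is effective for every configuration -/
lemma base_eff [CharZero K] {n s : ℕ} {g : ZCls s} (h : Base n s g) (p : Fin s → Fin (n + 1) → K) :
    IsEff p g := by
  have : Infinite K := CharZero.infinite K
  cases h with
  | exc i => exact isEff_exc p i
  | g1 hn hs => exact G1_eff n hn s hs p
  | g2 hn hs => exact G2_eff n hn s hs p
  | g3 hn hs => exact G3_eff n hn s hs p

end Pool.Agent.Helper17.Blowup
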