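import Pool.Agent.Helper17.Blowup.Gen
import Pool.Agent.Helper17.Blowup.Geom2

namespace Pool.Agent.Helper17.Blowup

open MvPolynomial Set

variable {K : Type*} [Field K] [CharZero K] {n s : ℕ}

/-- the coordinates of the points are algebraically independent over `ℚ` -/
def Gen (p : Fin s → Fin (n + 1) → K) : Prop :=
  AlgebraicIndependent ℚ (fun ij : Fin s × Fin (n + 1) => p ij.1 ij.2)

lemma Gen.perm {p : Fin s → Fin (n + 1) → K} (h : Gen p) (σ : Equiv.Perm (Fin s)) :
    Gen (fun i => p (σ i)) := by
  have := h.comp (fun ij : Fin s × Fin (n + 1) => (σ ij.1, ij.2)) (by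
    intro a b hab
    simp only [Prod.mk.injEq, EmbeddingLike.apply_eq_iff_eq] at hab
    exact Prod.ext hab.1 hab.2)
  exact this

/-- all maximal minors of a generic configuration are nonzero -/
lemma Gen.minor {p : Fin s → Fin (n + 1) → K} (h : Gen p) (ι : Fin (n + 1) → Fin s)
    (hι : Function.Injective ι) : (Matrix.of fun i k => p (ι k) i).det ≠ 0 := by
  have hx : AlgebraicIndependent ℚ (fun ij : Fin (n + 1) × Fin (n + 1) => p (ι ij.2) ij.1) := by
    have := h.comp (fun ij : Fin (n + 1) × Fin (n + 1) => (ι ij.2, ij.1)) (by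
      intro a b hab
      simp only [Prod.mk.injEq] at hab
      exact Prod.ext hab.2 (hι hab.1))
    exact this
  have h1 := Matrix.mvPolynomialX_mapMatrix_aeval ℚ (Matrix.of fun i k => p (ι k) i : Matrix (Fin (n + 1)) (Fin (n + 1)) K)
  have h2 : (Matrix.of fun i k => p (ι k) i : Matrix (Fin (n + 1)) (Fin (n + 1)) K).det
      = aeval (fun ij : Fin (n + 1) × Fin (n + 1) => p (ι ij.2) ij.1)
        (Matrix.mvPolynomialX (Fin (n + 1)) (Fin (n + 1)) ℚ).det := by
    rw [AlgHom.map_det]
    congr 1
    exact h1.symm
  rw [h2]
  intro h0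
  have h3 : (Matrix.mvPolynomialX (Fin (n + 1)) (Fin (n + 1)) ℚ).det = 0 := by
    apply hx
    rw [h0, map_zero]
  exact Matrix.det_mvPolynomialX_ne_zero (Fin (n + 1)) ℚ h3

/-- determinants of matrices with entries in an intermediate field -/
lemma det_mem_field {m : ℕ} (F : IntermediateField ℚ K) (A : Matrix (Fin m) (Fin m) K)
    (h : ∀ i j, A i j ∈ F) : A.det ∈ F := by
  rw [Matrix.det_apply]
  refine sum_mem fun σ _ => ?_
  have : (∏ i, A (σ i) i) ∈ F := prod_mem fun i _ => h _ _
  rcases Int.units_eq_one_or (Equiv.Perm.sign σ) with h1 | h1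
  · rw [h1, one_smul]; exact this
  · rw [h1, Units.neg_smul, one_smul]; exact neg_mem this

/-- a generic configuration admits the standard Cremona transformation, with generic image -/
lemma Gen.crem {p : Fin s → Fin (n + 1) → K} (h : Gen p) (hs : n + 1 ≤ s) :
    ∃ B : (Fin (n + 1) → K) ≃ₗ[K] (Fin (n + 1) → K), CremGood B p ∧ Gen (cremPt B p) := by
  classical
  set A : Matrix (Fin (n + 1)) (Fin (n + 1)) K := Matrix.of fun i k => p (Fin.castLE hs k) i with hA
  have hdet : A.det ≠ 0 := h.minor _ (Fin.castLE_injective hs)
  have hunit : IsUnit A := (Matrix.isUnit_iff_isUnit_det A).2 (isUnit_iff_ne_zero.2 hdet)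
  have hinj : Function.Injective A.mulVec := Matrix.mulVec_injective_iff_isUnit.2 hunit
  have hsurj : Function.Surjective A.mulVec := Matrix.mulVec_surjective_iff_isUnit.2 hunit
  set B : (Fin (n + 1) → K) ≃ₗ[K] (Fin (n + 1) → K) :=
    LinearEquiv.ofBijective A.mulVecLin ⟨hinj, hsurj⟩ with hB
  have hBapp : ∀ y, B y = A.mulVec y := fun y => rfl
  -- Cramer's rule
  have hcramer : ∀ y i, A.det * B.symm y i = (A.updateCol i y).det := by
    intro y i
    have h1 : A.mulVec (A.det • B.symm y) = A.mulVec (A.cramer y) := by
      rw [Matrix.mulVec_cramer, Matrix.mulVec_smul, ← hBapp, LinearEquiv.apply_symm_apply]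
    have h2 := congrFun (hinj h1) i
    rw [Pi.smul_apply, smul_eq_mul, Matrix.cramer_apply] at h2
    exact h2
  have hgood : CremGood B p := by
    refine ⟨fun j hj => ?_, fun j hj i h0 => ?_⟩
    · rw [hBapp, Matrix.mulVec_single_one]
      funext i
      simp only [Matrix.col_apply, hA, Matrix.of_apply]
      congr 1
    · have h1 := hcramer (p j) i
      rw [h0, mul_zero] at h1
      set ι : Fin (n + 1) → Fin s := Function.update (Fin.castLE hs) i j with hι
      have hιinj : Function.Injective ι := by
        intro a b hab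
        simp only [hι] at hab
        by_cases ha : a = i
        · by_cases hb : b = i
          · rw [ha, hb]
          · subst ha
            rw [Function.update_self, Function.update_of_ne hb] at hab
            exfalso
            rw [hab] at hj
            simp at hj
            omega
        · by_cases hb : b = i
          · subst hb
            rw [Function.update_self, Function.update_of_ne ha] at hab
            exfalso
            rw [← hab] at hj
            simp at hj
            omega
          · rw [Function.update_of_ne ha, Function.update_of_ne hb] at hab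
            exact Fin.castLE_injective hs hab
      apply h.minor ι hιinj
      rw [h1]
      congr 1
      ext a b
      simp only [Matrix.of_apply, Matrix.updateCol_apply, hι, hA]
      by_cases hb : b = i
      · subst hb; simp
      · simp [hb]
  refine ⟨B, hgood, ?_⟩
  -- genericity of the image
  unfold Gen
  refine algInd_of_mem h ?_
  set F := IntermediateField.adjoin ℚ (range fun ij : Fin s × Fin (n + 1) => cremPt B p ij.1 ij.2) with hF
  have hmem : ∀ j i, cremPt B p j i ∈ F := fun j i =>
    IntermediateField.subset_adjoin _ _ ⟨(j, i), rfl⟩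
  have hAF : ∀ i k, A i k ∈ F := by
    intro i k
    have := hmem (Fin.castLE hs k) i
    rw [cremPt, if_pos (by simpa using Fin.is_le k)] at this
    exact this
  have hsymm : ∀ y : Fin (n + 1) → K, (∀ i, y i ∈ F) → ∀ i, B.symm y i ∈ F := by
    intro y hy i
    have h1 := hcramer y i
    have h2 : B.symm y i = (A.updateCol i y).det / A.det := by
      rw [eq_div_iff hdet, mul_comm]; exact h1
    rw [h2]
    refine div_mem (det_mem_field F _ fun a b => ?_) (det_mem_field F _ hAF)
    rw [Matrix.updateCol_apply]
    split_ifs
    · exact hy a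
    · exact hAF a b
  have hBF : ∀ y : Fin (n + 1) → K, (∀ i, y i ∈ F) → ∀ i, B y i ∈ F := by
    intro y hy i
    rw [hBapp]
    simp only [Matrix.mulVec, dotProduct]
    exact sum_mem fun k _ => mul_mem (hAF i k) (hy k)
  rintro ⟨j, i⟩
  show p j i ∈ F
  by_cases hj : (j : ℕ) < n + 1
  · have := hmem j i
    rwa [cremPt, if_pos hj] at this
  · have h1 : p j = B (fun i => (B.symm (cremPt B p j) i)⁻¹) := by
      have := congrFun (cremPt_cremPt B p) j
      conv_lhs => rw [← this]
      rw [cremPt, if_neg hj]
    rw [h1]
    exact hBF _ (fun i => inv_mem (hsymm _ (fun i => hmem j i) i)) i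

end Pool.Agent.Helper17.Blowup
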