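import Pool.Agent.Helper17.Blowup.Geom3

namespace Pool.Agent.Helper17.Blowup

open MvPolynomial Set
open scoped NNReal

variable {K : Type*} [Field K] [CharZero K] {n s : ℕ}

/-- exceptional class -/
def excC (i : Fin s) : ZCls s := (0, fun j => if j = i then -1 else 0)

/-- Weyl divisors (internal form) -/
def IsW (n : ℕ) (D : ZCls s) : Prop := ∃ i, WOrb n (excC i) D

lemma IsW.perm {D : ZCls s} (h : IsW n D) (σ : Equiv.Perm (Fin s)) : IsW n (permC σ D) := by
  obtain ⟨i, hi⟩ := h
  exact ⟨i, Orb.perm σ (fun _ => rfl) hi⟩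

lemma IsW.crem {D : ZCls s} (h : IsW n D) : IsW n (crem0 n D) := by
  obtain ⟨i, hi⟩ := h
  exact ⟨i, Orb.crem trivial hi⟩

lemma degF_excC (i : Fin s) : degF n (toR (excC i)) = 1 := by
  unfold degF excC
  simp only [toR_fst, toR_snd]
  rw [Finset.sum_eq_single i]
  · simp
  · intro b _ hb; simp [hb]
  · simp

lemma IsW.degF {D : ZCls s} (hs : n + 1 ≤ s) (h : IsW n D) : degF n (toR D) = 1 := by
  obtain ⟨i, hi⟩ := h
  rw [Orb.degF hs hi, degF_excC]

lemma worb_eff (hs : n + 1 ≤ s) {g D : ZCls s} (h : WOrb n g D)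
    (hg : ∀ p : Fin s → Fin (n + 1) → K, IsEff p g) :
    ∀ p : Fin s → Fin (n + 1) → K, Gen p → IsEff p D := by
  have : Infinite K := CharZero.infinite K
  unfold WOrb at h
  induction h with
  | base => intro p _; exact hg p
  | @perm σ hσ D _ ih =>
      intro p hp
      have h1 := (ih (fun i => p (σ⁻¹ i)) (hp.perm σ⁻¹)).permC σ
      simpa using h1
  | @crem h D _ ih =>
      intro p hp
      obtain ⟨B, hB, hB'⟩ := hp.crem hs
      have h1 := (ih (cremPt B p) hB').crem hB.crem hs
      rwa [cremPt_cremPt] at h1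

lemma IsW.eff (hs : n + 1 ≤ s) {D : ZCls s} (h : IsW n D) {p : Fin s → Fin (n + 1) → K}
    (hp : Gen p) : IsEff p D := by
  obtain ⟨i, hi⟩ := h
  exact worb_eff hs hi (fun p => isEff_exc p i) p hp

/-- generators of the smaller cone -/
def genD (p : Fin s → Fin (n + 1) → K) : Set (RCls s) :=
  {v | ∃ D : ZCls s, IsW n D ∧ v = toR D} ∪
    {v | ∃ D : ZCls s, IsEff p D ∧ degF n (toR D) ≤ 0 ∧ v = toR D}

/-- the cone spanned by Weyl divisors and effective classes of nonpositive degree -/
def coneD (p : Fin s → Fin (n + 1) → K) : Submodule ℝ≥0 (RCls s) := Submodule.span ℝ≥0 (genD p)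

lemma base_degF {g : ZCls s} (h : Base n s g) : (∃ i, g = excC i) ∨ degF n (toR g) = 0 := by
  cases h with
  | exc i => left; exact ⟨i, rfl⟩
  | g1 hn hs =>
      right
      have hm : ∀ i : Fin s, (toR ((3, fun i => if (i : ℕ) + 2 < n then 3 else if (i : ℕ) < n + 7 then 1 else 0) : ZCls s)).2 i
          = 2 * (if (i : ℕ) < n - 2 then (1 : ℝ) else 0) + 1 * (if (i : ℕ) < n + 7 then (1 : ℝ) else 0) := by
        intro i
        simp only [toR_snd]
        by_cases h1 : (i : ℕ) + 2 < n
        · rw [if_pos h1, if_pos (by omega), if_pos (by omega)]; norm_num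
        · rw [if_neg h1, if_neg (show ¬ (i : ℕ) < n - 2 by omega)]
          split_ifs <;> norm_num
      unfold degF
      simp only [hm, Finset.sum_add_distrib, ← Finset.mul_sum]
      rw [sum_ite_lt _ (by omega : n - 2 ≤ s), sum_ite_lt _ (by omega : n + 7 ≤ s)]
      rw [toR_fst]; push_cast [Nat.cast_sub hn]; ring
  | g2 hn hs =>
      right
      have hm : ∀ i : Fin s, (toR ((2, fun i => if (i : ℕ) + 3 < n then 2 else if (i : ℕ) < n + 5 then 1 else 0) : ZCls s)).2 i
          = 1 * (if (i : ℕ) < n - 3 then (1 : ℝ) else 0) + 1 * (if (i : ℕ) < n + 5 then (1 : ℝ) else 0) := by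
        intro i
        simp only [toR_snd]
        by_cases h1 : (i : ℕ) + 3 < n
        · rw [if_pos h1, if_pos (by omega), if_pos (by omega)]; norm_num
        · rw [if_neg h1, if_neg (show ¬ (i : ℕ) < n - 3 by omega)]
          split_ifs <;> norm_num
      unfold degF
      simp only [hm, Finset.sum_add_distrib, ← Finset.mul_sum]
      rw [sum_ite_lt _ (by omega : n - 3 ≤ s), sum_ite_lt _ (by omega : n + 5 ≤ s)]
      rw [toR_fst]; push_cast [Nat.cast_sub hn]; ring
  | g3 hn hs =>
      right
      have hm : ∀ i : Fin s, (toR ((3, fun i => if (i : ℕ) + 5 < n then 3 else if (i : ℕ) < n + 4 then 2 else 0) : ZCls s)).2 i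
          = 1 * (if (i : ℕ) < n - 5 then (1 : ℝ) else 0) + 2 * (if (i : ℕ) < n + 4 then (1 : ℝ) else 0) := by
        intro i
        simp only [toR_snd]
        by_cases h1 : (i : ℕ) + 5 < n
        · rw [if_pos h1, if_pos (by omega), if_pos (by omega)]; norm_num
        · rw [if_neg h1, if_neg (show ¬ (i : ℕ) < n - 5 by omega)]
          split_ifs <;> norm_num
      unfold degF
      simp only [hm, Finset.sum_add_distrib, ← Finset.mul_sum]
      rw [sum_ite_lt _ (by omega : n - 5 ≤ s), sum_ite_lt _ (by omega : n + 4 ≤ s)]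
      rw [toR_fst]; push_cast [Nat.cast_sub hn]; ring

lemma coneT_le_coneD (hs : n + 1 ≤ s) {p : Fin s → Fin (n + 1) → K} (hp : Gen p) :
    coneT n s ≤ coneD p := by
  unfold coneT
  rw [Submodule.span_le]
  rintro v ⟨g, D, hg, hD, rfl⟩
  rcases base_degF hg with ⟨i, rfl⟩ | h0
  · exact Submodule.subset_span (Or.inl ⟨D, ⟨i, hD⟩, rfl⟩)
  · refine Submodule.subset_span (Or.inr ⟨D, worb_eff hs hD (fun p => base_eff hg p) p hp, ?_, rfl⟩)
    rw [Orb.degF hs hD, h0]

/-- permutation of coordinates on real classes -/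
def permL (σ : Equiv.Perm (Fin s)) : RCls s →ₗ[ℝ≥0] RCls s where
  toFun := fun v => (v.1, fun i => v.2 (σ i))
  map_add' := fun _ _ => rfl
  map_smul' := fun _ _ => rfl

lemma toR_permC (σ : Equiv.Perm (Fin s)) (D : ZCls s) : toR (permC σ D) = permL σ (toR D) := rfl

/-- Cremona reflection on real classes -/
noncomputable def cremL (n s : ℕ) : RCls s →ₗ[ℝ≥0] RCls s where
  toFun := fun v => v + ip n v (a0 n) • a0 n
  map_add' := fun v w => by rw [ip_add_left, add_smul]; abel
  map_smul' := fun a v => by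
    rw [NNReal.smul_def, ip_smul_left, mul_smul, ← smul_add]; rfl

lemma toR_crem0' (D : ZCls s) : toR (crem0 n D) = cremL n s (toR D) := toR_crem0 n D

omit [CharZero K] in
lemma coneD_perm {p : Fin s → Fin (n + 1) → K} (σ : Equiv.Perm (Fin s)) {v : RCls s}
    (hv : v ∈ coneD p) : permL σ v ∈ coneD (fun i => p (σ i)) := by
  have : coneD p ≤ (coneD (fun i => p (σ i))).comap (permL σ) := by
    unfold coneD
    rw [Submodule.span_le]
    rintro v (⟨D, hD, rfl⟩ | ⟨D, hD, h0, rfl⟩)
    · exact Submodule.subset_span (Or.inl ⟨permC σ D, hD.perm σ, rfl⟩)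
    · exact Submodule.subset_span (Or.inr ⟨permC σ D, hD.permC σ, by rw [degF_permC]; exact h0, rfl⟩)
  exact this hv

lemma coneD_crem (hs : n + 1 ≤ s) {p : Fin s → Fin (n + 1) → K}
    {B : (Fin (n + 1) → K) ≃ₗ[K] (Fin (n + 1) → K)} (hB : CremGood B p) {v : RCls s}
    (hv : v ∈ coneD p) : cremL n s v ∈ coneD (cremPt B p) := by
  have : Infinite K := CharZero.infinite K
  have : coneD p ≤ (coneD (cremPt B p)).comap (cremL n s) := by
    unfold coneD
    rw [Submodule.span_le]
    rintro v (⟨D, hD, rfl⟩ | ⟨D, hD, h0, rfl⟩)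
    · exact Submodule.subset_span (Or.inl ⟨crem0 n D, hD.crem, (toR_crem0' D).symm⟩)
    · exact Submodule.subset_span (Or.inr ⟨crem0 n D, hD.crem hB hs,
        by rw [degF_crem0 n hs]; exact h0, (toR_crem0' D).symm⟩)
  exact this hv

omit [CharZero K] in
lemma smul_mem_coneD {p : Fin s → Fin (n + 1) → K} {v : RCls s} (hv : v ∈ coneD p) {a : ℝ}
    (ha : 0 ≤ a) : a • v ∈ coneD p := nn_smul_mem hv ha

omit [CharZero K] in
lemma exc_mem_coneD (p : Fin s → Fin (n + 1) → K) (i : Fin s) : toR (excC i) ∈ coneD p :=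
  Submodule.subset_span (Or.inl ⟨excC i, ⟨i, Orb.base⟩, rfl⟩)

lemma lower_mem_coneD {p : Fin s → Fin (n + 1) → K} {v w : RCls s} (hv : v ∈ coneD p)
    (h1 : v.1 = w.1) (h2 : ∀ i, w.2 i ≤ v.2 i) : w ∈ coneD p := by
  have : w = v + ∑ i, (v.2 i - w.2 i) • toR (excC i) := by
    refine Prod.ext ?_ ?_
    · simp [h1, Prod.fst_sum, excC]
    · funext j
      simp only [Prod.snd_add, Pi.add_apply, Prod.snd_sum, Finset.sum_apply, Prod.smul_snd,
        Pi.smul_apply, smul_eq_mul, toR_snd, excC]
      rw [Finset.sum_eq_single j]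
      · simp
      · intro b _ hb; simp [hb.symm]
      · simp
  rw [this]
  refine Submodule.add_mem _ hv (Submodule.sum_mem _ fun i _ => smul_mem_coneD (exc_mem_coneD p i) ?_)
  have := h2 i; linarith

/-- **Theorem B.** For generic points every effective class is a nonnegative combination of Weyl
divisors and effective classes of nonpositive anticanonical degree. -/
theorem eff_mem_coneD (hn : 2 ≤ n) (hs : n + 1 ≤ s) : ∀ (N : ℕ) (p : Fin s → Fin (n + 1) → K),
    Gen p → ∀ D : ZCls s, IsEff p D → D.1.toNat = N → toR D ∈ coneD p := by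
  have : Infinite K := CharZero.infinite K
  intro N
  induction N using Nat.strong_induction_on with
  | _ N ih =>
    intro p hp D hD hN
    -- step 1: make the multiplicities nonnegative
    set Dp : ZCls s := (D.1, fun i => max (D.2 i) 0) with hDp
    have hDpE : IsEff p Dp := hD.mono rfl (fun i => le_rfl)
    suffices hmain : toR Dp ∈ coneD p by
      refine lower_mem_coneD hmain rfl fun i => ?_
      simp only [toR_snd, hDp]
      exact_mod_cast le_max_left _ _
    -- step 2: sort
    set σ : Equiv.Perm (Fin s) := Tuple.sort (fun i => - Dp.2 i) with hσ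
    have hmono : Monotone ((fun i => - Dp.2 i) ∘ σ) := Tuple.monotone_sort _
    set D1 : ZCls s := permC σ Dp with hD1
    set p1 : Fin s → Fin (n + 1) → K := fun i => p (σ i) with hp1
    have hp1G : Gen p1 := hp.perm σ
    have hD1E : IsEff p1 D1 := hDpE.permC σ
    have hD1fst : D1.1 = D.1 := rfl
    have hD1anti : ∀ i j, i ≤ j → D1.2 j ≤ D1.2 i := by
      intro i j hij
      have := hmono hij
      simp only [Function.comp_apply, neg_le_neg_iff] at this
      exact this
    have hD1nn : ∀ i, 0 ≤ D1.2 i := fun i => le_max_right _ _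
    suffices hmain : toR D1 ∈ coneD p1 by
      have h1 := coneD_perm σ⁻¹ hmain
      have h2 : permL σ⁻¹ (toR D1) = toR Dp := by
        rw [← toR_permC, hD1]
        congr 1
        refine Prod.ext rfl ?_
        funext i; simp [permC]
      have h3 : (fun i => p1 (σ⁻¹ i)) = p := by funext i; simp [hp1]
      rw [h2, h3] at h1
      exact h1
    -- step 3
    by_cases hdeg : degF n (toR D1) ≤ 0
    · exact Submodule.subset_span (Or.inr ⟨D1, hD1E, hdeg, rfl⟩)
    push Not at hdeg
    by_cases hdom : 0 ≤ ip n (toR D1) (a0 n)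
    · refine coneT_le_coneD hs hp1G (dominant_mem n hn s hs (toR D1) ⟨?_, ?_, hdom, hdeg.le⟩ ?_)
      · intro i j hij
        simp only [toR_snd]
        exact_mod_cast hD1anti i j hij
      · intro i
        simp only [toR_snd]
        exact_mod_cast hD1nn i
      · simp only [toR_snd, toR_fst]
        exact_mod_cast hD1E.mult_le _
    · push Not at hdom
      obtain ⟨B, hB, hB'⟩ := hp1G.crem hs
      have hD2E : IsEff (cremPt B p1) (crem0 n D1) := hD1E.crem hB hs
      have hlt : (crem0 n D1).1 < D1.1 := by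
        have h1 : (toR (crem0 n D1)).1 = (toR D1).1 + ip n (toR D1) (a0 n) := by
          rw [toR_crem0]; simp [a0]
        have h2 : (((crem0 n D1).1 : ℤ) : ℝ) < ((D1.1 : ℤ) : ℝ) := by
          simp only [toR_fst] at h1
          rw [h1]; linarith
        exact_mod_cast h2
      have hlt' : (crem0 n D1).1.toNat < N := by
        have h1 := hD2E.1
        have h2 := hD1E.1
        rw [← hN, ← hD1fst]
        omega
      have h1 := ih _ hlt' (cremPt B p1) hB' (crem0 n D1) hD2E rfl
      have h2 := coneD_crem hs hB.crem h1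
      rw [← toR_crem0', crem0_crem0 n hs, cremPt_cremPt] at h2
      exact h2

end Pool.Agent.Helper17.Blowup
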