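import Mathlib

/-! Order of vanishing of polynomials at points of affine space. -/

namespace Pool.Agent.Helper17.Blowup

open MvPolynomial

variable {K : Type*} [Field K] {σ τ : Type*}

/-- `f` vanishes to order at least `m` at `p`, i.e. `f ∈ 𝔪_p ^ m`. -/
def Van (f : MvPolynomial σ K) (p : σ → K) (m : ℕ) : Prop :=
  f ∈ (vanishingIdeal K ({p} : Set (σ → K))) ^ m

lemma Van.mono {f : MvPolynomial σ K} {p : σ → K} {m m' : ℕ} (h : Van f p m) (hm : m' ≤ m) :
    Van f p m' := Ideal.pow_le_pow_right hm h

lemma van_zero (f : MvPolynomial σ K) (p : σ → K) : Van f p 0 := by simp [Van]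

/-- substitution into an ideal -/
lemma van_aeval_mem {f : MvPolynomial σ K} {p : σ → K} {m : ℕ} (h : Van f p m)
    {S : Type*} [CommRing S] [Algebra K S] (J : Ideal S) (u : σ → S)
    (hu : ∀ i, u i - algebraMap K S (p i) ∈ J) : aeval u f ∈ J ^ m := by
  have h1 : vanishingIdeal K ({p} : Set (σ → K)) ≤ J.comap (aeval u : MvPolynomial σ K →ₐ[K] S) := by
    intro g hg
    rw [mem_vanishingIdeal_iff] at hg
    have hg0 : aeval p g = 0 := hg p rfl
    rw [Ideal.mem_comap]
    -- compare in the quotient
    have key : (Ideal.Quotient.mkₐ K J).comp (aeval u) = (aeval fun i => Ideal.Quotient.mkₐ K J (algebraMap K S (p i)) : MvPolynomial σ K →ₐ[K] S ⧸ J) := by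
      apply MvPolynomial.algHom_ext
      intro i
      simp only [AlgHom.comp_apply, aeval_X]
      rw [Ideal.Quotient.mkₐ_eq_mk, Ideal.Quotient.eq]
      exact hu i
    have key2 : (aeval fun i => Ideal.Quotient.mkₐ K J (algebraMap K S (p i)) : MvPolynomial σ K →ₐ[K] S ⧸ J)
        = (Algebra.ofId K (S ⧸ J)).comp (aeval p) := by
      apply MvPolynomial.algHom_ext
      intro i
      simp only [AlgHom.comp_apply, aeval_X]
      rfl
    have h2 := congrArg (fun φ => φ g) (key.trans key2)
    simp only [AlgHom.comp_apply, hg0, map_zero] at h2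
    rw [Ideal.Quotient.mkₐ_eq_mk, Ideal.Quotient.eq_zero_iff_mem] at h2
    exact h2
  have h3 : (vanishingIdeal K ({p} : Set (σ → K))) ^ m ≤ (J ^ m).comap (aeval u : MvPolynomial σ K →ₐ[K] S) := by
    rw [← Ideal.map_le_iff_le_comap, Ideal.map_pow]
    exact Ideal.pow_right_mono (Ideal.map_le_iff_le_comap.2 h1) m
  exact h3 h

lemma van_dvd {f : MvPolynomial σ K} {p : σ → K} {m : ℕ} (h : Van f p m)
    {S : Type*} [CommRing S] [Algebra K S] (t : S) (u : σ → S)
    (hu : ∀ i, t ∣ u i - algebraMap K S (p i)) : t ^ m ∣ aeval u f := by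
  have := van_aeval_mem h (Ideal.span {t}) u (fun i => Ideal.mem_span_singleton.2 (hu i))
  rwa [Ideal.span_singleton_pow, Ideal.mem_span_singleton] at this

/-- coefficient extraction along a line through the origin -/
lemma coeff_line (g : MvPolynomial σ K) (v : σ → K) (k : ℕ) :
    PowerSeries.coeff k (aeval (fun i => PowerSeries.C (v i) * (PowerSeries.X : PowerSeries K)) g)
      = eval v (homogeneousComponent k g) := by
  classical
  rw [aeval_def, eval₂_eq, map_sum, homogeneousComponent_apply, map_sum, Finset.sum_filter]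
  refine Finset.sum_congr rfl fun a _ => ?_
  have h1 : ∏ i ∈ a.support, (PowerSeries.C (v i) * (PowerSeries.X : PowerSeries K)) ^ a i
      = PowerSeries.C (∏ i ∈ a.support, v i ^ a i) * PowerSeries.X ^ (a.degree) := by
    simp only [mul_pow, Finset.prod_mul_distrib]
    rw [Finset.prod_pow_eq_pow_sum, map_prod]
    have : a.degree = ∑ i ∈ a.support, a i := rfl
    rw [this]
    simp
  rw [h1, ← mul_assoc]
  have h2 : (algebraMap K (PowerSeries K)) (coeff a g) = PowerSeries.C (coeff a g) := rfl
  rw [h2, ← map_mul, PowerSeries.coeff_C_mul, PowerSeries.coeff_X_pow]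
  by_cases hk : k = a.degree
  · rw [if_pos hk, if_pos hk.symm, eval_monomial]
    simp [Finsupp.prod]
  · rw [if_neg hk, if_neg (fun h => hk h.symm)]; simp

/-- the line criterion -/
lemma van_of_lines [Infinite K] {f : MvPolynomial σ K} {p : σ → K} {m : ℕ}
    (h : ∀ v : σ → K, (PowerSeries.X : PowerSeries K) ^ m ∣
      aeval (fun i => PowerSeries.C (p i) + PowerSeries.C (v i) * PowerSeries.X) f) : Van f p m := by
  classical
  set g : MvPolynomial σ K := aeval (fun i => X i + C (p i)) f with hg
  have hfg : f = aeval (fun i => X i - C (p i)) g := by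
    have : (aeval (fun i => X i - C (p i)) : MvPolynomial σ K →ₐ[K] MvPolynomial σ K).comp
        (aeval (fun i => X i + C (p i))) = AlgHom.id K _ := by
      apply MvPolynomial.algHom_ext
      intro i
      simp
    have h2 := congrArg (fun φ => φ f) this
    simp only [AlgHom.comp_apply, AlgHom.id_apply] at h2
    exact h2.symm
  have hgm : g ∈ idealOfVars σ K ^ m := by
    rw [mem_pow_idealOfVars_iff']
    intro a ha
    have hzero : homogeneousComponent a.degree g = 0 := by
      apply MvPolynomial.funext
      intro v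
      rw [← coeff_line, map_zero]
      have hv := h v
      rw [PowerSeries.X_pow_dvd_iff] at hv
      have hcomp : aeval (fun i => PowerSeries.C (v i) * (PowerSeries.X : PowerSeries K)) g
          = aeval (fun i => PowerSeries.C (p i) + PowerSeries.C (v i) * PowerSeries.X) f := by
        have : (aeval (fun i => PowerSeries.C (v i) * (PowerSeries.X : PowerSeries K)) : MvPolynomial σ K →ₐ[K] _).comp
            (aeval (fun i => X i + C (p i))) = aeval (fun i => PowerSeries.C (p i) + PowerSeries.C (v i) * PowerSeries.X) := by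
          apply MvPolynomial.algHom_ext
          intro i
          simp only [AlgHom.comp_apply, aeval_X, map_add, aeval_C]
          rw [add_comm]; rfl
        exact congrArg (fun φ => φ f) this
      rw [hcomp]
      exact hv _ ha
    have := coeff_homogeneousComponent a.degree g a
    rw [hzero] at this
    simpa using this.symm
  have hmap : Ideal.map (aeval (fun i => X i - C (p i)) : MvPolynomial σ K →ₐ[K] MvPolynomial σ K) (idealOfVars σ K)
      ≤ vanishingIdeal K ({p} : Set (σ → K)) := by
    unfold idealOfVars
    rw [Ideal.map_span, Ideal.span_le]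
    rintro _ ⟨_, ⟨i, rfl⟩, rfl⟩
    simp only [SetLike.mem_coe, mem_vanishingIdeal_iff]
    intro x hx
    rw [Set.mem_singleton_iff] at hx
    subst hx
    simp
  unfold Van
  rw [hfg]
  have h3 : aeval (fun i => X i - C (p i)) g ∈ Ideal.map (aeval (fun i => X i - C (p i)) : MvPolynomial σ K →ₐ[K] MvPolynomial σ K) (idealOfVars σ K ^ m) :=
    Ideal.mem_map_of_mem _ hgm
  rw [Ideal.map_pow] at h3
  exact Ideal.pow_right_mono hmap m h3

/-- a nonzero form of degree `d` has multiplicity at most `d` at every point -/
lemma van_le_degree [Infinite K] {f : MvPolynomial σ K} {p : σ → K} {m d : ℕ} (hf : f ≠ 0)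
    (hd : f.IsHomogeneous d) (h : Van f p m) : m ≤ d := by
  by_contra hcon
  push Not at hcon
  apply hf
  apply MvPolynomial.funext
  intro v
  rw [map_zero]
  set u : σ → Polynomial K := fun i => Polynomial.C (p i) + Polynomial.C (v i - p i) * Polynomial.X with hu
  have h1 : (Polynomial.X : Polynomial K) ^ m ∣ aeval u f := by
    refine van_dvd h _ u fun i => ?_
    simp only [hu]
    have : (algebraMap K (Polynomial K)) (p i) = Polynomial.C (p i) := rfl
    rw [this, add_sub_cancel_left]
    exact Dvd.intro_left _ rfl
  have h2 : (aeval u f).natDegree ≤ d * 1 := by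
    apply MvPolynomial.aeval_natDegree_le
    · exact hd.totalDegree_le
    · intro i
      simp only [hu]
      refine (Polynomial.natDegree_add_le _ _).trans ?_
      rw [Polynomial.natDegree_C]
      refine max_le (Nat.zero_le _) ?_
      exact (Polynomial.natDegree_C_mul_le _ _).trans Polynomial.natDegree_X_le
  have h3 : aeval u f = 0 := by
    by_contra hne
    have := Polynomial.natDegree_le_of_dvd h1 hne
    rw [Polynomial.natDegree_X_pow] at this
    omega
  have h4 : Polynomial.eval 1 (aeval u f) = eval v f := by
    have : ((Polynomial.aeval (1 : K)).restrictScalars K |>.comp (aeval u : MvPolynomial σ K →ₐ[K] _)) = (aeval v : MvPolynomial σ K →ₐ[K] K) := by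
      apply MvPolynomial.algHom_ext
      intro i
      simp [hu]
    have := congrArg (fun φ => φ f) this
    simpa [Polynomial.aeval_def, Polynomial.eval₂_eq_eval_map] using this
  rw [← h4, h3]; simp

/-- a form of degree `d` vanishes to order `d` at the origin -/
lemma van_origin {f : MvPolynomial σ K} {d : ℕ} (hd : f.IsHomogeneous d) : Van f 0 d := by
  have h1 : f ∈ idealOfVars σ K ^ d := by
    rw [mem_pow_idealOfVars_iff']
    intro x hx
    exact hd.coeff_eq_zero (fun h => by rw [← h] at hx; simp [Finsupp.degree] at hx)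
  have h2 : idealOfVars σ K ≤ vanishingIdeal K ({0} : Set (σ → K)) := by
    unfold idealOfVars
    rw [Ideal.span_le]
    rintro _ ⟨i, rfl⟩
    simp [mem_vanishingIdeal_iff]
  exact Ideal.pow_right_mono h2 d h1

end Pool.Agent.Helper17.Blowup
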